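import Pool.Agent.TH935.LP.L3

set_option autoImplicit false

/-! Abel summation (light copy of lemmas of `Pool.Agent.TH935.DS9`, to keep the build short) -/

namespace Pool.Agent.TH935.LD
open Finset
open Pool.Agent.H807R2.Dav
open Pool.Agent.TH935.DSB (dir harm tau_mul log1_nonneg)

/-- partial summation for monotone weights -/
lemma abel_mono (F : ℕ → ℂ) (w : ℕ → ℝ) (hw0 : ∀ n, 0 ≤ w n) (hw : ∀ n, w n ≤ w (n + 1)) (S : ℝ) (X : ℕ)
    (hS : ∀ y : ℕ, y ≤ X → ‖∑ n ∈ Icc 1 y, F n‖ ≤ S) :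
    ‖∑ n ∈ Icc 1 X, (w n : ℂ) * F n‖ ≤ 2 * w X * S := by
  have key : ∀ y : ℕ, y ≤ X → ‖∑ n ∈ Icc 1 y, (w n : ℂ) * F n - w y * ∑ n ∈ Icc 1 y, F n‖ ≤ (w y - w 0) * S := by
    intro y
    induction y with
    | zero => intro _; simp
    | succ y ih =>
      intro hy
      have h1 := ih (by omega)
      rw [sum_Icc_succ_top (by omega), sum_Icc_succ_top (by omega)]
      have h2 : ∑ n ∈ Icc 1 y, (w n : ℂ) * F n + w (y + 1) * F (y + 1) - w (y + 1) * (∑ n ∈ Icc 1 y, F n + F (y + 1)) =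
          (∑ n ∈ Icc 1 y, (w n : ℂ) * F n - w y * ∑ n ∈ Icc 1 y, F n) - ((w (y + 1) - w y : ℝ) : ℂ) * ∑ n ∈ Icc 1 y, F n := by
        push_cast
        ring
      rw [h2]
      refine (norm_sub_le _ _).trans ?_
      rw [norm_mul, Complex.norm_real, Real.norm_of_nonneg (by linarith [hw y])]
      have h3 : (w (y + 1) - w y) * ‖∑ n ∈ Icc 1 y, F n‖ ≤ (w (y + 1) - w y) * S :=
        mul_le_mul_of_nonneg_left (hS y (by omega)) (by linarith [hw y])
      linarith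
  have h1 := key X le_rfl
  have h2 : ∑ n ∈ Icc 1 X, (w n : ℂ) * F n = (∑ n ∈ Icc 1 X, (w n : ℂ) * F n - w X * ∑ n ∈ Icc 1 X, F n) +
      w X * ∑ n ∈ Icc 1 X, F n := by ring
  rw [h2]
  refine (norm_add_le _ _).trans ?_
  have h3 : ‖(w X : ℂ) * ∑ n ∈ Icc 1 X, F n‖ ≤ w X * S := by
    rw [norm_mul, Complex.norm_real, Real.norm_of_nonneg (hw0 X)]
    exact mul_le_mul_of_nonneg_left (hS X le_rfl) (hw0 X)
  have hS0 : 0 ≤ S := (norm_nonneg _).trans (hS X le_rfl)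
  have h4 : 0 ≤ w 0 * S := mul_nonneg (hw0 0) hS0
  linarith

lemma ww_mono (r Y q n : ℕ) : ww r Y q n ≤ ww r Y q (n + 1) := by
  unfold ww
  apply sum_le_sum_of_subset_of_nonneg
  · intro a ha
    rw [mem_filter, mem_Icc] at ha ⊢
    exact ⟨⟨ha.1.1, by omega⟩, by omega, ha.2.2⟩
  · intro a _ _
    positivity

lemma ww_le' (r Y q n X : ℕ) (h : n ≤ X) : ww r Y q n ≤ r * (1 + Real.log X) ^ (2 ^ r) := by
  unfold ww
  have h1 : ∀ a ∈ (Icc 1 n).filter (fun a => a * Y < n ∧ q ∣ a), (EE r Y a : ℝ) / a ≤ r * ((a.divisors.card : ℝ) ^ r / a) := by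
    intro a _
    rw [mul_div_assoc']
    exact div_le_div_of_nonneg_right (EE_le_tau r Y a) (Nat.cast_nonneg _)
  refine (sum_le_sum h1).trans ?_
  rw [← mul_sum]
  apply mul_le_mul_of_nonneg_left _ (Nat.cast_nonneg _)
  refine (sum_le_sum_of_subset_of_nonneg (filter_subset _ _) (fun a _ _ => by positivity)).trans ?_
  exact (tau_pow_div r n).trans (pow_le_pow_left₀ (log1_nonneg _) (log_mono1 h) _)

lemma exists_res (q : ℕ) (hq : 1 ≤ q) (c : ℤ) (hc : IsCoprime c (q : ℤ)) :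
    ∃ b0 ∈ (range q).filter (fun b => Nat.Coprime b q), (q : ℤ) ∣ c + b0 ∧
      ∀ b ∈ (range q).filter (fun b => Nat.Coprime b q), (q : ℤ) ∣ c + b → b = b0 := by
  have hq' : (0 : ℤ) < q := by exact_mod_cast hq
  obtain ⟨b0, hb0⟩ : ∃ b0 : ℕ, b0 = ((-c) % (q : ℤ)).toNat := ⟨_, rfl⟩
  have hnn := Int.emod_nonneg (-c) hq'.ne'
  have hlt := Int.emod_lt_of_pos (-c) hq'
  have hb0z : (b0 : ℤ) = (-c) % q := by rw [hb0, Int.toNat_of_nonneg hnn]
  have hb0lt : b0 < q := by omega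
  have hdvd : (q : ℤ) ∣ c + b0 := by
    rw [hb0z]
    have := Int.emod_add_mul_ediv (-c) q
    refine ⟨-((-c) / q), ?_⟩
    linarith
  have hcop : Nat.Coprime b0 q := by
    rw [← Nat.isCoprime_iff_coprime]
    obtain ⟨k, hk⟩ := hdvd
    have : (b0 : ℤ) = -c + q * k := by linarith
    rw [this]
    exact IsCoprime.add_mul_left_left (IsCoprime.neg_left hc) k
  refine ⟨b0, by rw [mem_filter, mem_range]; exact ⟨hb0lt, hcop⟩, hdvd, ?_⟩
  intro b hb h
  rw [mem_filter, mem_range] at hb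
  have h9 : (q : ℤ) ∣ (b : ℤ) - b0 := by
    have := dvd_sub h hdvd
    have e : c + (b : ℤ) - (c + b0) = b - b0 := by ring
    rwa [e] at this
  have h10 : |(b : ℤ) - b0| < q := by
    rw [abs_lt]
    constructor <;> omega
  have := Int.eq_zero_of_abs_lt_dvd h9 h10
  omega

/-- the expansion of the model at integers -/
lemma dsh_exp (r Y z : ℕ) (n : ℕ) : ((dsh r Y z n : ℝ) : ℂ) = ∑ q ∈ Icc 1 z, ∑ b ∈ (range q).filter (fun b => Nat.Coprime b q),
    ((ww r Y q n : ℝ) : ℂ) * ee ((n : ℝ) * ((b : ℝ) / q)) := by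
  unfold dsh
  push_cast
  apply sum_congr rfl
  intro q hq
  rw [mem_Icc] at hq
  have h2 := rexp_eq q hq.1 (n : ℤ)
  rw [Int.natAbs_natCast] at h2
  rw [← h2]
  unfold rexp
  rw [sum_mul]
  apply sum_congr rfl
  intro b _
  push_cast
  ring

end Pool.Agent.TH935.LD
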