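import Pool.Agent.TH935.LP.L1
import Pool.Agent.H373R2.T7.BilF

set_option autoImplicit false

/-! Model (light copy of lemmas of `Pool.Agent.TH935.DS2`, to keep the build short) -/

namespace Pool.Agent.TH935.LD
open Finset
open Pool.Agent.H807R2.Dav
open Pool.Agent.TH935.DSB (dir harm tau_mul log1_nonneg)
open Pool.Agent.H373R2.T7 (orth)

/-- Ramanujan's sum -/
def ram (q n : ℕ) : ℤ := ∑ g ∈ (Nat.gcd q n).divisors, (g : ℤ) * ArithmeticFunction.moebius (q / g)

/-- Ramanujan's sum, exponential form -/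
noncomputable def rexp (q : ℕ) (n : ℤ) : ℂ :=
  ∑ b ∈ (range q).filter (fun b => Nat.Coprime b q), ee ((n : ℝ) * ((b : ℝ) / q))

lemma frac_sum (a : ℕ) (ha : 1 ≤ a) (F : ℝ → ℂ) :
    ∑ j ∈ range a, F ((j : ℝ) / a) =
      ∑ q ∈ a.divisors, ∑ b ∈ (range q).filter (fun b => Nat.Coprime b q), F ((b : ℝ) / q) := by
  rw [← sum_fiberwise_of_maps_to (s := range a) (t := a.divisors) (g := fun j => a / Nat.gcd a j) (by
    intro j _
    rw [Nat.mem_divisors]
    exact ⟨Nat.div_dvd_of_dvd (Nat.gcd_dvd_left _ _), by omega⟩)]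
  apply sum_congr rfl
  intro q hq
  rw [Nat.mem_divisors] at hq
  obtain ⟨⟨d, rfl⟩, _⟩ := hq
  have hq0 : 0 < q := Nat.pos_of_ne_zero (by rintro rfl; simp at ha)
  have hd0 : 0 < d := Nat.pos_of_ne_zero (by rintro rfl; simp at ha)
  have key : ∀ j, (q * d) / Nat.gcd (q * d) j = q → Nat.gcd (q * d) j = d := by
    intro j hj
    have h1 := Nat.div_mul_cancel (Nat.gcd_dvd_left (q * d) j)
    rw [hj] at h1
    exact Nat.eq_of_mul_eq_mul_left hq0 h1
  apply sum_nbij' (fun j => j / d) (fun b => d * b)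
  · intro j hj
    rw [mem_filter, mem_range] at hj
    have h1 := key j hj.2
    have hdj : d ∣ j := by rw [← h1]; exact Nat.gcd_dvd_right _ _
    obtain ⟨b, rfl⟩ := hdj
    rw [Nat.mul_div_cancel_left _ hd0, mem_filter, mem_range]
    refine ⟨?_, ?_⟩
    · have := hj.1
      rw [mul_comm] at this
      exact Nat.lt_of_mul_lt_mul_right this
    · rw [mul_comm q d, Nat.gcd_mul_left] at h1
      have h2 : Nat.gcd q b = 1 := Nat.eq_of_mul_eq_mul_left hd0 (by rw [h1, mul_one])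
      exact (Nat.coprime_iff_gcd_eq_one.2 h2).symm
  · intro b hb
    rw [mem_filter, mem_range] at hb
    rw [mem_filter, mem_range]
    refine ⟨by rw [mul_comm]; exact Nat.mul_lt_mul_of_pos_right hb.1 hd0, ?_⟩
    rw [mul_comm q d, Nat.gcd_mul_left, Nat.coprime_iff_gcd_eq_one.1 hb.2.symm, mul_one,
      Nat.mul_div_cancel_left _ hd0]
  · intro j hj
    rw [mem_filter, mem_range] at hj
    have h1 := key j hj.2
    have hdj : d ∣ j := by rw [← h1]; exact Nat.gcd_dvd_right _ _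
    exact Nat.mul_div_cancel' hdj
  · intro b _
    exact Nat.mul_div_cancel_left _ hd0
  · intro j hj
    rw [mem_filter, mem_range] at hj
    have h1 := key j hj.2
    have hdj : d ∣ j := by rw [← h1]; exact Nat.gcd_dvd_right _ _
    obtain ⟨b, rfl⟩ := hdj
    rw [Nat.mul_div_cancel_left _ hd0]
    congr 1
    have : (0 : ℝ) < d := by exact_mod_cast hd0
    have : (0 : ℝ) < q := by exact_mod_cast hq0
    push_cast
    field_simp

lemma rexp_sum (a : ℕ) (ha : 1 ≤ a) (n : ℤ) : ∑ q ∈ a.divisors, rexp q n = if (a : ℤ) ∣ n then (a : ℂ) else 0 := by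
  have h1 := frac_sum a ha (fun x => ee ((n : ℝ) * x))
  unfold rexp
  rw [← h1, ← orth a ha n]
  apply sum_congr rfl
  intro j _
  congr 1
  ring

lemma rexp_eq (q : ℕ) (hq : 1 ≤ q) (n : ℤ) : rexp q n = ram q n.natAbs := by
  have h1 := (ArithmeticFunction.sum_eq_iff_sum_mul_moebius_eq (R := ℂ) (f := fun q => rexp q n)
    (g := fun a => if (a : ℤ) ∣ n then (a : ℂ) else 0)).1 (fun a ha => rexp_sum a ha n) q hq
  rw [← h1]
  unfold ram
  push_cast
  rw [Nat.sum_divisorsAntidiagonal' (f := fun x y => ((ArithmeticFunction.moebius x : ℤ) : ℂ) * if (y : ℤ) ∣ n then (y : ℂ) else 0)]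
  have h2 : (Nat.gcd q n.natAbs).divisors = q.divisors.filter (fun g => g ∣ n.natAbs) := by
    ext g
    rw [mem_filter, Nat.mem_divisors, Nat.mem_divisors, Nat.dvd_gcd_iff]
    have : Nat.gcd q n.natAbs ≠ 0 := Nat.gcd_ne_zero_left (by omega)
    constructor
    · rintro ⟨⟨h1, h2⟩, _⟩
      exact ⟨⟨h1, by omega⟩, h2⟩
    · rintro ⟨⟨h1, h2⟩, h3⟩
      exact ⟨⟨h1, h3⟩, this⟩
  rw [h2, sum_filter]
  apply sum_congr rfl
  intro g _
  have h3 : ((g : ℤ) ∣ n) ↔ g ∣ n.natAbs := Int.natCast_dvd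
  by_cases h : g ∣ n.natAbs
  · rw [if_pos h, if_pos (h3.2 h)]; ring
  · rw [if_neg h, if_neg (fun h4 => h (h3.1 h4)), mul_zero]

/-- the coefficients of the model -/
noncomputable def ww (r Y q n : ℕ) : ℝ := ∑ a ∈ (Icc 1 n).filter (fun a => a * Y < n ∧ q ∣ a), (EE r Y a : ℝ) / a

/-- the model -/
noncomputable def dsh (r Y z n : ℕ) : ℝ := ∑ q ∈ Icc 1 z, (ram q n : ℝ) * ww r Y q n

lemma ww_nonneg (r Y q n : ℕ) : 0 ≤ ww r Y q n := sum_nonneg fun _ _ => by positivity

lemma log_mono1 {n X : ℕ} (h : n ≤ X) : 1 + Real.log n ≤ 1 + Real.log X := by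
  rcases Nat.eq_zero_or_pos n with h0 | h0
  · subst h0
    have := Real.log_natCast_nonneg X
    simp; linarith
  · have := Real.log_le_log (by exact_mod_cast h0 : (0 : ℝ) < n) (by exact_mod_cast h : (n : ℝ) ≤ X)
    linarith

end Pool.Agent.TH935.LD
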