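import Pool.Agent.TH935.LP.L2

set_option autoImplicit false

/-! Exponential sums (light copy of lemmas of `Pool.Agent.TH935.DS3`, `DS4`, to keep the build short) -/

namespace Pool.Agent.TH935.LD
open Finset
open Pool.Agent.H807R2.Dav
open Pool.Agent.TH935.DSB (dir harm tau_mul log1_nonneg)
open Pool.Agent.H373R2.T7 (orth)

lemma dirC (X : ℕ) (F : ℕ → ℕ → ℂ) :
    ∑ n ∈ Icc 1 X, ∑ d ∈ n.divisors, F d (n / d) = ∑ d ∈ Icc 1 X, ∑ m ∈ Icc 1 (X / d), F d m := by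
  have h1 : ∀ n ∈ Icc 1 X, ∑ d ∈ n.divisors, F d (n / d) = ∑ d ∈ Icc 1 X, if d ∣ n then F d (n / d) else 0 := by
    intro n hn
    rw [mem_Icc] at hn
    rw [← sum_filter]
    apply sum_congr _ fun _ _ => rfl
    ext d
    rw [Nat.mem_divisors, mem_filter, mem_Icc]
    constructor
    · rintro ⟨h1, h2⟩
      exact ⟨⟨Nat.pos_of_dvd_of_pos h1 (by omega), (Nat.le_of_dvd (by omega) h1).trans hn.2⟩, h1⟩
    · rintro ⟨_, h1⟩
      exact ⟨h1, by omega⟩
  rw [sum_congr rfl h1, sum_comm]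
  apply sum_congr rfl
  intro d hd
  rw [mem_Icc] at hd
  rw [← sum_filter]
  apply sum_nbij' (fun n => n / d) (fun m => d * m)
  · intro n hn
    rw [mem_filter, mem_Icc] at hn
    rw [mem_Icc]
    obtain ⟨⟨h1, h2⟩, c, rfl⟩ := hn
    rw [Nat.mul_div_cancel_left _ (by omega)]
    refine ⟨Nat.pos_of_ne_zero (by rintro rfl; simp at h1), ?_⟩
    rw [Nat.le_div_iff_mul_le (by omega), mul_comm]
    exact h2
  · intro m hm
    rw [mem_Icc] at hm
    rw [mem_filter, mem_Icc]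
    refine ⟨⟨Nat.mul_pos (by omega) (by omega), ?_⟩, dvd_mul_right _ _⟩
    have := (Nat.le_div_iff_mul_le (by omega : 0 < d)).1 hm.2
    rw [mul_comm]
    exact this
  · intro n hn
    rw [mem_filter] at hn
    exact Nat.mul_div_cancel' hn.2
  · intro m _
    exact Nat.mul_div_cancel_left _ (by omega)
  · intro n _
    rfl

lemma geo_Ioc (u v : ℕ) (θ d : ℝ) (hd : 0 < d) (h : d ≤ dd θ) : ‖∑ n ∈ Ioc u v, ee ((n : ℝ) * θ)‖ ≤ 3 / d := by
  rcases le_or_gt u v with h1 | h1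
  · have h0 : Ioc u v = Ico (u + 1) (v + 1) := by
      ext n
      rw [mem_Ioc, mem_Ico]
      omega
    rw [h0]
    have h2 : ((v + 1 : ℕ) : ℝ) - ((u + 1 : ℕ) : ℝ) ≤ (v : ℝ) - u := by push_cast; linarith
    have h3 : (0 : ℝ) ≤ (v : ℝ) - u := by
      have : (u : ℝ) ≤ v := by exact_mod_cast h1
      linarith
    exact (geo_bound (u + 1) (v + 1) (by omega) h2 θ).trans (KK_le' h3 hd h)
  · rw [Ioc_eq_empty (by omega), sum_empty, norm_zero]
    positivity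

lemma lI_sum (Y m : ℕ) (θ : ℝ) : ∑ b ∈ Icc 1 m, (lI Y b : ℂ) * ee ((b : ℝ) * θ) = ∑ b ∈ Ioc Y m, ee ((b : ℝ) * θ) := by
  have h1 : ∀ b ∈ Icc 1 m, (lI Y b : ℂ) * ee ((b : ℝ) * θ) = if Y < b then ee ((b : ℝ) * θ) else 0 := by
    intro b _
    rw [lI_apply]
    split_ifs <;> simp
  rw [sum_congr rfl h1, ← sum_filter]
  apply sum_congr _ fun _ _ => rfl
  ext b
  rw [mem_filter, mem_Icc, mem_Ioc]
  omega

/-- the exponential sum of the divisor function -/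
lemma sum_dk (r Y y : ℕ) (θ : ℝ) : ∑ n ∈ Icc 1 y, (dk r n : ℂ) * ee ((n : ℝ) * θ) =
    ∑ a ∈ Icc 1 y, (EE r Y a : ℂ) * ∑ b ∈ Ioc Y (y / a), ee ((b : ℝ) * (a * θ)) +
      ∑ n ∈ Icc 1 y, ((sI Y ^ r) n : ℂ) * ee ((n : ℝ) * θ) := by
  have h1 : ∀ n ∈ Icc 1 y, (dk r n : ℂ) * ee ((n : ℝ) * θ) =
      ∑ a ∈ n.divisors, (EE r Y a : ℂ) * ((lI Y (n / a) : ℂ) * ee (((n / a : ℕ) : ℝ) * (a * θ))) +
        ((sI Y ^ r) n : ℂ) * ee ((n : ℝ) * θ) := by
    intro n _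
    rw [dk_dec r Y n]
    push_cast
    rw [add_mul, sum_mul]
    congr 1
    apply sum_congr rfl
    intro a ha
    have h2 := Nat.dvd_of_mem_divisors ha
    have h3 : (0 : ℝ) < a := by exact_mod_cast Nat.pos_of_mem_divisors ha
    have h4 : ((n / a : ℕ) : ℝ) * (a * θ) = n * θ := by
      rw [Nat.cast_div h2 h3.ne']
      field_simp
    rw [h4]
    ring
  rw [sum_congr rfl h1, sum_add_distrib]
  congr 1
  rw [dirC y (fun a m => (EE r Y a : ℂ) * ((lI Y m : ℂ) * ee ((m : ℝ) * (a * θ))))]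
  apply sum_congr rfl
  intro a _
  rw [← mul_sum, lI_sum]

/-- the exponential sum of the model -/
lemma sum_dsh (r Y z y : ℕ) (hY : 1 ≤ Y) (θ : ℝ) : ∑ n ∈ Icc 1 y, (dsh r Y z n : ℂ) * ee ((n : ℝ) * θ) =
    ∑ a ∈ Icc 1 y, (EE r Y a : ℂ) * ((1 / (a : ℂ)) * ∑ q ∈ (Icc 1 z).filter (fun q => q ∣ a),
      ∑ b ∈ (range q).filter (fun b => Nat.Coprime b q), ∑ n ∈ Ioc (a * Y) y, ee ((n : ℝ) * (θ + (b : ℝ) / q))) := by
  have h1 : ∀ n ∈ Icc 1 y, (dsh r Y z n : ℂ) * ee ((n : ℝ) * θ) =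
      ∑ a ∈ Icc 1 y, ∑ q ∈ Icc 1 z, ∑ b ∈ (range q).filter (fun b => Nat.Coprime b q),
        if a * Y < n ∧ q ∣ a then (EE r Y a : ℂ) * (1 / (a : ℂ)) * ee ((n : ℝ) * (θ + (b : ℝ) / q)) else 0 := by
    intro n hn
    rw [mem_Icc] at hn
    rw [sum_comm]
    unfold dsh
    push_cast
    rw [sum_mul]
    apply sum_congr rfl
    intro q hq
    rw [mem_Icc] at hq
    have h2 := rexp_eq q hq.1 (n : ℤ)
    rw [Int.natAbs_natCast] at h2
    rw [← h2]
    have h3 : ((ww r Y q n : ℝ) : ℂ) = ∑ a ∈ Icc 1 y, if a * Y < n ∧ q ∣ a then (EE r Y a : ℂ) * (1 / (a : ℂ)) else 0 := by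
      unfold ww
      push_cast
      rw [← sum_filter]
      have h4 : (Icc 1 n).filter (fun a => a * Y < n ∧ q ∣ a) = (Icc 1 y).filter (fun a => a * Y < n ∧ q ∣ a) := by
        ext a
        rw [mem_filter, mem_filter, mem_Icc, mem_Icc]
        constructor
        · rintro ⟨h5, h6⟩
          exact ⟨⟨h5.1, h5.2.trans hn.2⟩, h6⟩
        · rintro ⟨h5, h6⟩
          refine ⟨⟨h5.1, ?_⟩, h6⟩
          have : a ≤ a * Y := Nat.le_mul_of_pos_right _ hY
          omega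
      rw [h4]
      apply sum_congr rfl
      intro a _
      ring
    rw [h3, mul_sum, sum_mul]
    apply sum_congr rfl
    intro a _
    unfold rexp
    by_cases h5 : a * Y < n ∧ q ∣ a
    · rw [if_pos h5, sum_mul, sum_mul]
      apply sum_congr rfl
      intro b _
      rw [if_pos h5, mul_add, ee_add]
      push_cast
      ring
    · rw [if_neg h5, mul_zero, zero_mul]
      symm
      apply sum_eq_zero
      intro b _
      rw [if_neg h5]
  rw [sum_congr rfl h1, sum_comm]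
  apply sum_congr rfl
  intro a _
  rw [sum_comm, mul_sum, mul_sum, sum_filter]
  apply sum_congr rfl
  intro q _
  rw [sum_comm]
  by_cases h2 : q ∣ a
  · rw [if_pos h2, mul_sum, mul_sum]
    apply sum_congr rfl
    intro b _
    rw [mul_sum, mul_sum]
    have h3 : Ioc (a * Y) y = (Icc 1 y).filter (fun n => a * Y < n) := by
      ext n
      rw [mem_filter, mem_Icc, mem_Ioc]
      omega
    rw [h3, sum_filter]
    apply sum_congr rfl
    intro n _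
    by_cases h4 : a * Y < n
    · rw [if_pos ⟨h4, h2⟩, if_pos h4]
      ring
    · rw [if_neg (fun h => h4 h.1), if_neg h4]
  · rw [if_neg h2]
    apply sum_eq_zero
    intro b _
    apply sum_eq_zero
    intro n _
    rw [if_neg (fun h => h2 h.2)]

/-- fractions are integers or far from the integers -/
lemma dd_frac (M : ℕ) (hM : 1 ≤ M) (m : ℤ) (h : ¬ (M : ℤ) ∣ m) : 4 / (M : ℝ) ≤ dd ((m : ℝ) / M) := by
  have hM0 : (0 : ℝ) < M := by exact_mod_cast hM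
  have hMz : (0 : ℤ) < M := by exact_mod_cast hM
  have h1 := Int.emod_nonneg m hMz.ne'
  have h2 := Int.emod_lt_of_pos m hMz
  have h3 : m % M ≠ 0 := fun h4 => h (Int.dvd_of_emod_eq_zero h4)
  have h5 : (m : ℝ) / M = ((m % M : ℤ) : ℝ) / M + ((m / M : ℤ) : ℝ) := by
    have h6 := Int.emod_add_mul_ediv m M
    have h7 : (m : ℝ) = ((m % M : ℤ) : ℝ) + M * ((m / M : ℤ) : ℝ) := by exact_mod_cast h6.symm
    nth_rw 1 [h7]
    field_simp
  rw [h5, dd_add_int]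
  have h8 : (1 : ℝ) ≤ ((m % M : ℤ) : ℝ) := by exact_mod_cast (by omega : 1 ≤ m % M)
  have h9 : ((m % M : ℤ) : ℝ) ≤ M - 1 := by
    have : m % M ≤ M - 1 := by omega
    exact_mod_cast this
  have h10 : 1 / (M : ℝ) ≤ min (((m % M : ℤ) : ℝ) / M) (1 - ((m % M : ℤ) : ℝ) / M) := by
    apply le_min
    · exact div_le_div_of_nonneg_right h8 hM0.le
    · rw [le_sub_iff_add_le, ← add_div, div_le_one hM0]
      linarith
  refine le_trans ?_ (dd_ge (by positivity) (by rw [div_le_one hM0]; linarith))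
  have : 4 / (M : ℝ) = 4 * (1 / M) := by ring
  rw [this]
  linarith

lemma frac_add (q0 q : ℕ) (h0 : 1 ≤ q0) (hq : 1 ≤ q) (c : ℤ) (b : ℕ) :
    (c : ℝ) / q0 + (b : ℝ) / q = ((c * q + b * q0 : ℤ) : ℝ) / ((q0 * q : ℕ) : ℝ) := by
  have : (0 : ℝ) < q0 := by exact_mod_cast h0
  have : (0 : ℝ) < q := by exact_mod_cast hq
  push_cast
  field_simp

lemma reso (q0 q : ℕ) (h0 : 1 ≤ q0) (hq : 1 ≤ q) (c : ℤ) (hc : IsCoprime c (q0 : ℤ)) (b : ℕ) (hb : Nat.Coprime b q)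
    (h : ((q0 * q : ℕ) : ℤ) ∣ c * q + b * q0) : q = q0 ∧ (q0 : ℤ) ∣ c + b := by
  push_cast at h
  have h1 : (q0 : ℤ) ∣ q := by
    have h2 : (q0 : ℤ) ∣ c * q + b * q0 := (dvd_mul_right _ _).trans h
    have h3 : (q0 : ℤ) ∣ c * q := (Int.dvd_iff_dvd_of_dvd_add h2).2 (dvd_mul_left _ _)
    exact hc.symm.dvd_of_dvd_mul_left h3
  have h2 : (q : ℤ) ∣ q0 := by
    have h2 : (q : ℤ) ∣ c * q + b * q0 := (dvd_mul_left _ _).trans h
    have h3 : (q : ℤ) ∣ b * q0 := (Int.dvd_iff_dvd_of_dvd_add h2).1 (dvd_mul_left _ _)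
    have h4 : IsCoprime (b : ℤ) (q : ℤ) := Nat.isCoprime_iff_coprime.2 hb
    exact h4.symm.dvd_of_dvd_mul_left h3
  have h3 : q = q0 := Nat.dvd_antisymm (Int.natCast_dvd_natCast.1 h2) (Int.natCast_dvd_natCast.1 h1)
  subst h3
  refine ⟨rfl, ?_⟩
  have h4 : c * q + b * q = q * (c + b) := by ring
  rw [h4] at h
  have : (q : ℤ) ≠ 0 := by positivity
  exact (mul_dvd_mul_iff_left this).1 h

lemma cop_card (q : ℕ) : ((range q).filter (fun b => Nat.Coprime b q)).card ≤ q :=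
  (card_filter_le _ _).trans (by rw [card_range])

lemma sum_EE (r Y n X : ℕ) (h : n ≤ X) : ∑ a ∈ Icc 1 n, (EE r Y a : ℝ) ≤ r * (n * (1 + Real.log X) ^ (2 ^ r)) := by
  have h1 : ∀ a ∈ Icc 1 n, (EE r Y a : ℝ) ≤ r * ((a.divisors.card : ℝ) ^ r) := fun a _ => EE_le_tau r Y a
  refine (sum_le_sum h1).trans ?_
  rw [← mul_sum]
  apply mul_le_mul_of_nonneg_left _ (Nat.cast_nonneg _)
  refine (tau_pow_sum r n).trans ?_
  apply mul_le_mul_of_nonneg_left _ (Nat.cast_nonneg _)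
  exact pow_le_pow_left₀ (log1_nonneg _) (log_mono1 h) _

lemma sum_sI (r Y y X : ℕ) (h : Y ^ r ≤ X) : ∑ n ∈ Icc 1 y, ((sI Y ^ r) n : ℝ) ≤ (Y : ℝ) ^ r * (1 + Real.log X) ^ (2 ^ r) := by
  have h1 : ∑ n ∈ Icc 1 y, ((sI Y ^ r) n : ℝ) ≤ ∑ n ∈ Icc 1 (Y ^ r), (n.divisors.card : ℝ) ^ r := by
    have h2 : ∑ n ∈ Icc 1 y, ((sI Y ^ r) n : ℝ) = ∑ n ∈ (Icc 1 y).filter (fun n => n ≤ Y ^ r), ((sI Y ^ r) n : ℝ) := by
      rw [sum_filter]
      apply sum_congr rfl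
      intro n _
      split_ifs with h3
      · rfl
      · rw [sI_pow_zero Y r n (by omega)]
        simp
    rw [h2]
    refine (sum_le_sum_of_subset_of_nonneg (t := Icc 1 (Y ^ r)) ?_ (fun n _ _ => Nat.cast_nonneg _)).trans ?_
    · intro n hn
      rw [mem_filter, mem_Icc] at hn
      rw [mem_Icc]
      exact ⟨hn.1.1, hn.2⟩
    · apply sum_le_sum
      intro n _
      have h3 := (sI_pow_le Y r n).trans (dk_le r n)
      exact_mod_cast h3
  refine h1.trans ((tau_pow_sum r _).trans ?_)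
  push_cast
  apply mul_le_mul_of_nonneg_left _ (by positivity)
  apply pow_le_pow_left₀
  · have := log1_nonneg (Y ^ r)
    push_cast at this
    exact this
  · have := log_mono1 h
    push_cast at this
    exact this

lemma norm_sI (r Y y X : ℕ) (h : Y ^ r ≤ X) (θ : ℝ) :
    ‖∑ n ∈ Icc 1 y, ((sI Y ^ r) n : ℂ) * ee ((n : ℝ) * θ)‖ ≤ (Y : ℝ) ^ r * (1 + Real.log X) ^ (2 ^ r) := by
  refine (norm_sum_le _ _).trans (le_trans (le_of_eq ?_) (sum_sI r Y y X h))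
  apply sum_congr rfl
  intro n _
  rw [norm_mul, norm_ee, mul_one, Complex.norm_natCast]

end Pool.Agent.TH935.LD
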