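import Mathlib

set_option autoImplicit false

/-! Functions that are polynomials in `log y` up to a power saving. -/

namespace Pool.Agent.TH935.LP
open Finset Polynomial

/-- `f` is a polynomial of degree at most `m` in `log y`, up to a power saving -/
def PL (m : ℕ) (f : ℝ → ℝ) : Prop := ∃ P : ℝ[X], P.natDegree ≤ m ∧ ∃ C δ : ℝ, 0 ≤ C ∧ 0 < δ ∧
  ∀ y : ℝ, 1 ≤ y → |f y - P.eval (Real.log y)| ≤ C * y ^ (-δ)

lemma log_pow_bd (i : ℕ) (ε : ℝ) (hε : 0 < ε) : ∃ C : ℝ, 0 ≤ C ∧ ∀ y : ℝ, 1 ≤ y → Real.log y ^ i ≤ C * y ^ ε := by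
  obtain ⟨e, he⟩ : ∃ e, e = ε / (i + 1) := ⟨_, rfl⟩
  have he0 : 0 < e := by rw [he]; positivity
  refine ⟨(1 / e) ^ i, by positivity, fun y hy => ?_⟩
  have h1 := Real.log_le_rpow_div (x := y) (by linarith) he0
  have h2 := Real.log_nonneg hy
  have h3 : Real.log y ^ i ≤ (y ^ e / e) ^ i := pow_le_pow_left₀ h2 h1 i
  refine h3.trans ?_
  have h4 : (y ^ e / e) ^ i = (1 / e) ^ i * y ^ (e * i) := by
    rw [div_pow, one_div, inv_pow, ← Real.rpow_natCast (y ^ e) i, ← Real.rpow_mul (by linarith)]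
    ring
  rw [h4]
  apply mul_le_mul_of_nonneg_left _ (by positivity)
  apply Real.rpow_le_rpow_of_exponent_le hy
  rw [he, div_mul_eq_mul_div, div_le_iff₀ (by positivity)]
  nlinarith

lemma poly_bd (P : ℝ[X]) (ε : ℝ) (hε : 0 < ε) : ∃ C : ℝ, 0 ≤ C ∧ ∀ y : ℝ, 1 ≤ y → |P.eval (Real.log y)| ≤ C * y ^ ε := by
  choose c hc h using fun i => log_pow_bd i ε hε
  refine ⟨∑ i ∈ range (P.natDegree + 1), |P.coeff i| * c i, sum_nonneg fun i _ => mul_nonneg (abs_nonneg _) (hc i), fun y hy => ?_⟩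
  rw [eval_eq_sum_range, sum_mul]
  refine (abs_sum_le_sum_abs _ _).trans (sum_le_sum fun i _ => ?_)
  rw [abs_mul, abs_pow, abs_of_nonneg (Real.log_nonneg hy), mul_assoc]
  exact mul_le_mul_of_nonneg_left (h i y hy) (abs_nonneg _)

lemma rp_mono {y : ℝ} (hy : 1 ≤ y) {a b : ℝ} (h : a ≤ b) : y ^ (-b) ≤ y ^ (-a) :=
  Real.rpow_le_rpow_of_exponent_le hy (by linarith)

lemma PL.of_poly (P : ℝ[X]) (m : ℕ) (h : P.natDegree ≤ m) : PL m (fun y => P.eval (Real.log y)) :=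
  ⟨P, h, 0, 1, le_rfl, one_pos, fun y hy => by rw [sub_self, abs_zero, zero_mul]⟩

lemma PL.const (c : ℝ) (m : ℕ) : PL m (fun _ => c) := by
  have h := PL.of_poly (C c) m (by rw [natDegree_C]; omega)
  simpa using h

lemma PL.mono {m m' : ℕ} {f : ℝ → ℝ} (h : PL m f) (hm : m ≤ m') : PL m' f := by
  obtain ⟨P, h1, h2⟩ := h
  exact ⟨P, h1.trans hm, h2⟩

lemma PL.add {m : ℕ} {f g : ℝ → ℝ} (hf : PL m f) (hg : PL m g) : PL m (fun y => f y + g y) := by
  obtain ⟨P, hP, C, δ, hC, hδ, h1⟩ := hf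
  obtain ⟨Q, hQ, D, η, hD, hη, h2⟩ := hg
  refine ⟨P + Q, (natDegree_add_le _ _).trans (max_le hP hQ), C + D, min δ η, by positivity, lt_min hδ hη, fun y hy => ?_⟩
  have h3 := h1 y hy
  have h4 := h2 y hy
  rw [eval_add]
  have e : f y + g y - (P.eval (Real.log y) + Q.eval (Real.log y)) = (f y - P.eval (Real.log y)) + (g y - Q.eval (Real.log y)) := by ring
  rw [e, add_mul]
  refine (abs_add_le _ _).trans (add_le_add (h3.trans ?_) (h4.trans ?_))
  · exact mul_le_mul_of_nonneg_left (rp_mono hy (min_le_left _ _)) hC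
  · exact mul_le_mul_of_nonneg_left (rp_mono hy (min_le_right _ _)) hD

lemma PL.smul {m : ℕ} {f : ℝ → ℝ} (c : ℝ) (hf : PL m f) : PL m (fun y => c * f y) := by
  obtain ⟨P, hP, D, δ, hD, hδ, h1⟩ := hf
  refine ⟨Polynomial.C c * P, (natDegree_C_mul_le _ _).trans hP, |c| * D, δ, by positivity, hδ, fun y hy => ?_⟩
  rw [eval_mul, eval_C, ← mul_sub, abs_mul, mul_assoc]
  exact mul_le_mul_of_nonneg_left (h1 y hy) (abs_nonneg _)

lemma PL.sum {m : ℕ} {ι : Type} (s : Finset ι) {f : ι → ℝ → ℝ} (h : ∀ i ∈ s, PL m (f i)) : PL m (fun y => ∑ i ∈ s, f i y) := by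
  classical
  induction s using Finset.induction_on with
  | empty => simpa using PL.const 0 m
  | insert a s ha ih =>
    have h1 := (h a (mem_insert_self _ _)).add (ih fun i hi => h i (mem_insert_of_mem hi))
    simpa only [sum_insert ha] using h1

lemma PL.mul {m m' : ℕ} {f g : ℝ → ℝ} (hf : PL m f) (hg : PL m' g) : PL (m + m') (fun y => f y * g y) := by
  obtain ⟨P, hP, C, δ, hC, hδ, h1⟩ := hf
  obtain ⟨Q, hQ, D, η, hD, hη, h2⟩ := hg
  obtain ⟨e, he⟩ : ∃ e, e = min δ η / 2 := ⟨_, rfl⟩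
  have hmin : 0 < min δ η := lt_min hδ hη
  have he0 : 0 < e := by rw [he]; positivity
  have hed : 2 * e ≤ δ := by rw [he]; have := min_le_left δ η; linarith
  have hee : 2 * e ≤ η := by rw [he]; have := min_le_right δ η; linarith
  obtain ⟨c, hc, h3⟩ := poly_bd P e he0
  obtain ⟨d, hd, h4⟩ := poly_bd Q e he0
  refine ⟨P * Q, natDegree_mul_le.trans (add_le_add hP hQ), C * (D + d) + c * D, e, by positivity, he0, fun y hy => ?_⟩
  have k1 := h1 y hy
  have k2 := h2 y hy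
  have k3 := h3 y hy
  have k4 := h4 y hy
  obtain ⟨p, hp⟩ : ∃ p, p = P.eval (Real.log y) := ⟨_, rfl⟩
  obtain ⟨q, hq⟩ : ∃ q, q = Q.eval (Real.log y) := ⟨_, rfl⟩
  rw [eval_mul]
  rw [← hp] at k1 k3 ⊢
  rw [← hq] at k2 k4 ⊢
  have hy0 : 0 < y := by linarith
  obtain ⟨t, ht⟩ : ∃ t, t = y ^ e := ⟨_, rfl⟩
  have ht1 : 1 ≤ t := by rw [ht]; exact Real.one_le_rpow hy he0.le
  have ht0 : 0 < t := by linarith
  have hte : y ^ (-e) = t⁻¹ := by rw [ht, Real.rpow_neg hy0.le]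
  have ht2 : y ^ (-(2 * e)) = t⁻¹ * t⁻¹ := by
    rw [Real.rpow_neg hy0.le, show (2 : ℝ) * e = e + e by ring, Real.rpow_add hy0, mul_inv, ← ht]
  have k1' : |f y - p| ≤ C * (t⁻¹ * t⁻¹) := k1.trans (mul_le_mul_of_nonneg_left (by rw [← ht2]; exact rp_mono hy hed) hC)
  have k2' : |g y - q| ≤ D * (t⁻¹ * t⁻¹) := k2.trans (mul_le_mul_of_nonneg_left (by rw [← ht2]; exact rp_mono hy hee) hD)
  rw [hte]
  rw [← ht] at k3 k4
  have hi : t⁻¹ ≤ 1 := inv_le_one_of_one_le₀ ht1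
  have hi0 : 0 < t⁻¹ := by positivity
  have htt : t⁻¹ * t = 1 := inv_mul_cancel₀ ht0.ne'
  have hg1 : |g y| ≤ (D + d) * t := by
    have : g y = (g y - q) + q := by ring
    rw [this]
    refine (abs_add_le _ _).trans ?_
    have : D * (t⁻¹ * t⁻¹) ≤ D * t := by
      apply mul_le_mul_of_nonneg_left _ hD
      nlinarith
    linarith
  have e1 : f y * g y - p * q = (f y - p) * g y + p * (g y - q) := by ring
  rw [e1]
  refine (abs_add_le _ _).trans ?_
  rw [abs_mul, abs_mul, add_mul]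
  apply add_le_add
  · calc |f y - p| * |g y| ≤ (C * (t⁻¹ * t⁻¹)) * ((D + d) * t) := mul_le_mul k1' hg1 (abs_nonneg _) (by positivity)
      _ = C * (D + d) * t⁻¹ * (t⁻¹ * t) := by ring
      _ = C * (D + d) * t⁻¹ := by rw [htt, mul_one]
  · calc |p| * |g y - q| ≤ (c * t) * (D * (t⁻¹ * t⁻¹)) := mul_le_mul k3 k2' (abs_nonneg _) (by positivity)
      _ = c * D * t⁻¹ * (t⁻¹ * t) := by ring
      _ = c * D * t⁻¹ := by rw [htt, mul_one]

lemma PL.congr_err {m : ℕ} {f g : ℝ → ℝ} (hf : PL m f) (C δ : ℝ) (hC : 0 ≤ C) (hδ : 0 < δ)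
    (h : ∀ y : ℝ, 1 ≤ y → |g y - f y| ≤ C * y ^ (-δ)) : PL m g := by
  have h1 : PL m (fun y => g y - f y) := ⟨0, by simp, C, δ, hC, hδ, fun y hy => by simpa using h y hy⟩
  have h2 := hf.add h1
  have e : (fun y => f y + (g y - f y)) = g := by funext y; ring
  rwa [e] at h2

lemma PL.eq {m : ℕ} {f g : ℝ → ℝ} (hf : PL m f) (h : ∀ y : ℝ, 1 ≤ y → g y = f y) : PL m g :=
  hf.congr_err 0 1 le_rfl one_pos fun y hy => by rw [h y hy]; simp

lemma PL.bd {m : ℕ} {f : ℝ → ℝ} (hf : PL m f) (ε : ℝ) (hε : 0 < ε) : ∃ C : ℝ, 0 ≤ C ∧ ∀ y : ℝ, 1 ≤ y → |f y| ≤ C * y ^ ε := by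
  obtain ⟨P, hP, C, δ, hC, hδ, h1⟩ := hf
  obtain ⟨c, hc, h3⟩ := poly_bd P ε hε
  refine ⟨C + c, by positivity, fun y hy => ?_⟩
  have e : f y = (f y - P.eval (Real.log y)) + P.eval (Real.log y) := by ring
  rw [e, add_mul]
  refine (abs_add_le _ _).trans (add_le_add ((h1 y hy).trans ?_) (h3 y hy))
  apply mul_le_mul_of_nonneg_left _ hC
  exact Real.rpow_le_rpow_of_exponent_le hy (by linarith)

/-- change of `log` under a bounded perturbation -/
lemma poly_lip (P : ℝ[X]) : ∃ C : ℝ, 0 ≤ C ∧ ∀ u v : ℝ, |P.eval u - P.eval v| ≤ C * (|u - v| * (1 + |u| + |v|) ^ P.natDegree) := by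
  refine ⟨∑ i ∈ range (P.natDegree + 1), |P.coeff i| * i, sum_nonneg fun i _ => by positivity, fun u v => ?_⟩
  rw [eval_eq_sum_range, eval_eq_sum_range, ← sum_sub_distrib, sum_mul]
  refine (abs_sum_le_sum_abs _ _).trans (sum_le_sum fun i hi => ?_)
  rw [mem_range] at hi
  rw [← mul_sub, abs_mul, mul_assoc]
  apply mul_le_mul_of_nonneg_left _ (abs_nonneg _)
  have hB : 1 ≤ 1 + |u| + |v| := by have := abs_nonneg u; have := abs_nonneg v; linarith
  have h1 : u ^ i - v ^ i = (u - v) * ∑ j ∈ range i, u ^ j * v ^ (i - 1 - j) := by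
    rw [mul_comm]; exact (Commute.geom_sum₂_mul (Commute.all u v) i).symm
  rw [h1, abs_mul]
  have h2 : |∑ j ∈ range i, u ^ j * v ^ (i - 1 - j)| ≤ i * (1 + |u| + |v|) ^ P.natDegree := by
    refine (abs_sum_le_sum_abs _ _).trans ?_
    have h3 : ∀ j ∈ range i, |u ^ j * v ^ (i - 1 - j)| ≤ (1 + |u| + |v|) ^ P.natDegree := by
      intro j hj
      rw [mem_range] at hj
      rw [abs_mul, abs_pow, abs_pow]
      calc |u| ^ j * |v| ^ (i - 1 - j) ≤ (1 + |u| + |v|) ^ j * (1 + |u| + |v|) ^ (i - 1 - j) := by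
            apply mul_le_mul _ _ (by positivity) (by positivity)
            · exact pow_le_pow_left₀ (abs_nonneg _) (by have := abs_nonneg v; linarith) j
            · exact pow_le_pow_left₀ (abs_nonneg _) (by have := abs_nonneg u; linarith) _
        _ = (1 + |u| + |v|) ^ (j + (i - 1 - j)) := by rw [pow_add]
        _ ≤ (1 + |u| + |v|) ^ P.natDegree := pow_le_pow_right₀ hB (by omega)
    refine (sum_le_card_nsmul _ _ _ h3).trans ?_
    rw [card_range, nsmul_eq_mul]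
  calc |u - v| * |∑ j ∈ range i, u ^ j * v ^ (i - 1 - j)| ≤ |u - v| * (i * (1 + |u| + |v|) ^ P.natDegree) :=
        mul_le_mul_of_nonneg_left h2 (abs_nonneg _)
    _ = i * (|u - v| * (1 + |u| + |v|) ^ P.natDegree) := by ring

lemma PL.sqrt {m : ℕ} {f : ℝ → ℝ} (hf : PL m f) : PL m (fun y => f (Real.sqrt y)) := by
  obtain ⟨P, hP, C, δ, hC, hδ, h1⟩ := hf
  refine ⟨P.comp (Polynomial.C (1 / 2) * X), ?_, C, δ / 2, hC, by positivity, fun y hy => ?_⟩
  · refine natDegree_comp_le.trans ?_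
    have : (Polynomial.C (1 / 2 : ℝ) * X).natDegree ≤ 1 := (natDegree_C_mul_le _ _).trans (by rw [natDegree_X])
    calc P.natDegree * (Polynomial.C (1 / 2 : ℝ) * X).natDegree ≤ P.natDegree * 1 := Nat.mul_le_mul_left _ this
      _ ≤ m := by rw [mul_one]; exact hP
  · have hs : 1 ≤ Real.sqrt y := by rw [← Real.sqrt_one]; exact Real.sqrt_le_sqrt hy
    have h2 := h1 _ hs
    rw [eval_comp, eval_mul, eval_C, eval_X]
    rw [Real.log_sqrt (by linarith)] at h2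
    rw [show (1 / 2 : ℝ) * Real.log y = Real.log y / 2 by ring]
    refine h2.trans (le_of_eq ?_)
    rw [Real.sqrt_eq_rpow, ← Real.rpow_mul (by linarith)]
    congr 2
    ring

/-- from sequences to functions -/
lemma PL.of_seq {m : ℕ} (a : ℕ → ℝ) (P : ℝ[X]) (hP : P.natDegree ≤ m) (C δ : ℝ) (hC : 0 ≤ C) (hδ : 0 < δ)
    (h : ∀ n : ℕ, 1 ≤ n → |a n - P.eval (Real.log n)| ≤ C * (n : ℝ) ^ (-δ)) : PL m (fun y => a ⌊y⌋₊) := by
  obtain ⟨L, hL, hl⟩ := poly_lip P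
  obtain ⟨c, hc, h2⟩ := poly_bd ((1 + 2 * X : ℝ[X]) ^ P.natDegree) (1 / 2) (by norm_num)
  obtain ⟨e, he⟩ : ∃ e, e = min δ (1 / 2) := ⟨_, rfl⟩
  have he0 : 0 < e := by rw [he]; exact lt_min hδ (by norm_num)
  refine ⟨P, hP, C * 2 ^ δ + L * (2 * c), e, by positivity, he0, fun y hy => ?_⟩
  have hy0 : 0 < y := by linarith
  have hn1 : 1 ≤ ⌊y⌋₊ := Nat.le_floor (by simpa using hy)
  have hn1' : (1 : ℝ) ≤ ⌊y⌋₊ := by exact_mod_cast hn1
  have hn0 : (0 : ℝ) < ⌊y⌋₊ := by linarith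
  have hny : (⌊y⌋₊ : ℝ) ≤ y := Nat.floor_le hy0.le
  have hyn : y < ⌊y⌋₊ + 1 := Nat.lt_floor_add_one y
  have hhalf : y / 2 ≤ ⌊y⌋₊ := by linarith
  have h3 := h _ hn1
  have e1 : a ⌊y⌋₊ - P.eval (Real.log y) = (a ⌊y⌋₊ - P.eval (Real.log ⌊y⌋₊)) + (P.eval (Real.log ⌊y⌋₊) - P.eval (Real.log y)) := by ring
  rw [e1, add_mul]
  refine (abs_add_le _ _).trans (add_le_add ?_ ?_)
  · refine h3.trans ?_
    rw [mul_assoc]
    apply mul_le_mul_of_nonneg_left _ hC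
    have h4 : (⌊y⌋₊ : ℝ) ^ (-δ) ≤ (y / 2) ^ (-δ) := by
      rw [Real.rpow_neg hn0.le, Real.rpow_neg (by positivity)]
      apply inv_anti₀ (Real.rpow_pos_of_pos (by positivity) _)
      exact Real.rpow_le_rpow (by positivity) hhalf hδ.le
    refine h4.trans ?_
    rw [Real.div_rpow hy0.le (by norm_num), Real.rpow_neg (by norm_num : (0 : ℝ) ≤ 2), div_inv_eq_mul, mul_comm]
    apply mul_le_mul_of_nonneg_left _ (by positivity)
    exact rp_mono hy (by rw [he]; exact min_le_left _ _)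
  · refine (hl _ _).trans ?_
    rw [mul_assoc]
    apply mul_le_mul_of_nonneg_left _ hL
    have hl0 : 0 ≤ Real.log ⌊y⌋₊ := Real.log_nonneg hn1'
    have hl1 : Real.log ⌊y⌋₊ ≤ Real.log y := Real.log_le_log hn0 hny
    rw [abs_of_nonneg hl0, abs_of_nonneg (Real.log_nonneg hy)]
    have h5 : |Real.log ⌊y⌋₊ - Real.log y| ≤ 2 / y := by
      rw [abs_sub_comm, abs_of_nonneg (by linarith), ← Real.log_div hy0.ne' hn0.ne']
      have := Real.log_le_sub_one_of_pos (x := y / ⌊y⌋₊) (by positivity)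
      refine this.trans ?_
      rw [div_sub_one hn0.ne', div_le_div_iff₀ hn0 hy0]
      nlinarith
    have h6 := h2 y hy
    rw [eval_pow, eval_add, eval_mul, eval_X, eval_one, eval_ofNat] at h6
    have h7 : (1 + Real.log ⌊y⌋₊ + Real.log y) ^ P.natDegree ≤ (1 + 2 * Real.log y) ^ P.natDegree :=
      pow_le_pow_left₀ (by linarith) (by linarith) _
    have h8 : (1 + 2 * Real.log y) ^ P.natDegree ≤ c * y ^ (1 / 2 : ℝ) := (le_abs_self _).trans h6
    have hl2 : 0 ≤ Real.log y := Real.log_nonneg hy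
    calc |Real.log ⌊y⌋₊ - Real.log y| * (1 + Real.log ⌊y⌋₊ + Real.log y) ^ P.natDegree ≤ (2 / y) * (c * y ^ (1 / 2 : ℝ)) :=
          mul_le_mul h5 (h7.trans h8) (by positivity) (by positivity)
      _ = 2 * c * (y ^ (1 / 2 : ℝ) / y) := by ring
      _ = 2 * c * y ^ (-(1 / 2) : ℝ) := by
          congr 1
          rw [div_eq_iff hy0.ne']
          nth_rewrite 3 [← Real.rpow_one y]
          rw [← Real.rpow_add hy0]
          norm_num
      _ ≤ 2 * c * y ^ (-e) := mul_le_mul_of_nonneg_left (rp_mono hy (by rw [he]; exact min_le_right _ _)) (by positivity)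

lemma pow_step (δ : ℝ) (hδ : 0 < δ) (n : ℕ) (hn : 1 ≤ n) :
    (n : ℝ) ^ (-(1 + δ)) ≤ (2 * (1 + δ) / δ) * ((n : ℝ) ^ (-δ) - ((n + 1 : ℕ) : ℝ) ^ (-δ)) := by
  have hn0 : (0 : ℝ) < n := by exact_mod_cast hn
  have hn1 : (1 : ℝ) ≤ n := by exact_mod_cast hn
  obtain ⟨l, hl⟩ : ∃ l, l = Real.log (1 + 1 / n) := ⟨_, rfl⟩
  have h1 : 1 / (2 * (n : ℝ)) ≤ l := by
    rw [hl]
    have h := Real.one_sub_inv_le_log_of_pos (x := 1 + 1 / (n : ℝ)) (by positivity)
    refine le_trans ?_ h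
    have : 1 - (1 + 1 / (n : ℝ))⁻¹ = 1 / (n + 1) := by field_simp; ring
    rw [this]
    apply one_div_le_one_div_of_le (by positivity)
    linarith
  have h2 : l ≤ 1 := by
    rw [hl]
    have h := Real.log_le_sub_one_of_pos (x := 1 + 1 / (n : ℝ)) (by positivity)
    refine h.trans ?_
    rw [add_sub_cancel_left, div_le_one hn0]
    exact hn1
  have hl0 : 0 < l := lt_of_lt_of_le (by positivity) h1
  have h3 : ((n + 1 : ℕ) : ℝ) ^ (-δ) = (n : ℝ) ^ (-δ) * Real.exp (-(δ * l)) := by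
    have : ((n + 1 : ℕ) : ℝ) = n * (1 + 1 / n) := by push_cast; field_simp
    rw [this, Real.mul_rpow hn0.le (by positivity), hl, Real.rpow_def_of_pos (x := 1 + 1 / (n : ℝ)) (by positivity)]
    congr 2
    ring
  have h4 : Real.exp (-(δ * l)) ≤ 1 / (1 + δ * l) := by
    rw [Real.exp_neg, one_div]
    apply inv_anti₀ (by positivity)
    have := Real.add_one_le_exp (δ * l)
    linarith
  have h5 : δ / (2 * (1 + δ) * n) ≤ 1 - Real.exp (-(δ * l)) := by
    have h6 : 1 - 1 / (1 + δ * l) = δ * l / (1 + δ * l) := by field_simp; ring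
    have h7 : δ / (2 * (1 + δ) * n) ≤ δ * l / (1 + δ * l) := by
      rw [div_le_div_iff₀ (by positivity) (by positivity)]
      have a1 : 1 ≤ 2 * n * l := by
        rw [div_le_iff₀ (by positivity)] at h1
        linarith
      have a2 : 1 + δ * l ≤ 1 + δ := by nlinarith
      calc δ * (1 + δ * l) ≤ δ * ((1 + δ) * (2 * n * l)) := by
            apply mul_le_mul_of_nonneg_left _ hδ.le
            nlinarith
        _ = δ * l * (2 * (1 + δ) * n) := by ring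
    linarith
  have h8 : (n : ℝ) ^ (-(1 + δ)) = (n : ℝ) ^ (-δ) * (1 / n) := by
    rw [show -(1 + δ) = -δ + (-1) by ring, Real.rpow_add hn0, Real.rpow_neg_one, one_div]
  rw [h3, h8]
  have hu : 0 < (n : ℝ) ^ (-δ) := Real.rpow_pos_of_pos hn0 _
  calc (n : ℝ) ^ (-δ) * (1 / n) = (n : ℝ) ^ (-δ) * ((2 * (1 + δ) / δ) * (δ / (2 * (1 + δ) * n))) := by
        field_simp
    _ ≤ (n : ℝ) ^ (-δ) * ((2 * (1 + δ) / δ) * (1 - Real.exp (-(δ * l)))) := by
        apply mul_le_mul_of_nonneg_left _ hu.le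
        exact mul_le_mul_of_nonneg_left h5 (by positivity)
    _ = _ := by ring

/-- a sequence with small differences converges, with a rate -/
lemma seq_lim (x : ℕ → ℝ) (C δ : ℝ) (hC : 0 ≤ C) (hδ : 0 < δ) (h : ∀ n : ℕ, 1 ≤ n → |x (n + 1) - x n| ≤ C * (n : ℝ) ^ (-(1 + δ))) :
    ∃ L D : ℝ, 0 ≤ D ∧ ∀ n : ℕ, 1 ≤ n → |x n - L| ≤ D * (n : ℝ) ^ (-δ) := by
  obtain ⟨D, hD⟩ : ∃ D, D = C * (2 * (1 + δ) / δ) := ⟨_, rfl⟩
  have hD0 : 0 ≤ D := by rw [hD]; positivity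
  obtain ⟨u, hu⟩ : ∃ u : ℕ → ℝ, u = fun n : ℕ => (n : ℝ) ^ (-δ) := ⟨_, rfl⟩
  have hstep : ∀ n : ℕ, 1 ≤ n → |x (n + 1) - x n| ≤ D * (u n - u (n + 1)) := by
    intro n hn
    refine (h n hn).trans ?_
    rw [hD, mul_assoc, hu]
    exact mul_le_mul_of_nonneg_left (pow_step δ hδ n hn) hC
  have hz : Monotone (fun n : ℕ => x (n + 1) - D * u (n + 1)) := by
    apply monotone_nat_of_le_succ
    intro n
    have := (abs_le.1 (hstep (n + 1) (by omega))).1
    linarith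
  have hy : Antitone (fun n : ℕ => x (n + 1) + D * u (n + 1)) := by
    apply antitone_nat_of_succ_le
    intro n
    have := (abs_le.1 (hstep (n + 1) (by omega))).2
    linarith
  have hu0 : ∀ n : ℕ, 0 ≤ u n := fun n => by rw [hu]; positivity
  have hzy : ∀ m n : ℕ, x (m + 1) - D * u (m + 1) ≤ x (n + 1) + D * u (n + 1) := by
    intro m n
    have a1 := hz (le_max_left m n)
    have a2 := hy (le_max_right m n)
    simp only at a1 a2
    have a3 := mul_nonneg hD0 (hu0 (max m n + 1))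
    linarith
  have hbdd : BddAbove (Set.range (fun n : ℕ => x (n + 1) - D * u (n + 1))) := by
    refine ⟨x (0 + 1) + D * u (0 + 1), ?_⟩
    rintro _ ⟨m, rfl⟩
    exact hzy m 0
  refine ⟨⨆ n : ℕ, (x (n + 1) - D * u (n + 1)), D, hD0, fun n hn => ?_⟩
  obtain ⟨k, rfl⟩ : ∃ k, n = k + 1 := ⟨n - 1, by omega⟩
  have b1 := le_ciSup hbdd k
  have b2 : ⨆ n : ℕ, (x (n + 1) - D * u (n + 1)) ≤ x (k + 1) + D * u (k + 1) := ciSup_le fun m => hzy m k
  have b3 : ((k + 1 : ℕ) : ℝ) ^ (-δ) = u (k + 1) := by rw [hu]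
  rw [b3, abs_le]
  constructor <;> linarith

end Pool.Agent.TH935.LP
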