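import Pool.Agent.TH935.LP.W3

set_option autoImplicit false

/-! The sums of the divisor functions over multiples as combinations of dilated summatory functions. -/

namespace Pool.Agent.TH935.LP
open Finset Polynomial
open Pool.Agent.TH935.DSB (dir harm log1_nonneg)
open Pool.Agent.TH935.LD (dk dk_succ TT)

/-- `F` is a combination of dilated summatory functions of `d_r` -/
def Rep (r : ℕ) (M : ℝ) (F : ℕ → ℝ) : Prop := ∃ l : List (ℕ × ℝ), (∀ p ∈ l, 1 ≤ p.1) ∧ (l.map (fun p => |p.2|)).sum ≤ M ∧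
  ∀ X, F X = (l.map (fun p => p.2 * SD r (X / p.1))).sum

lemma Rep.zero (r : ℕ) {M : ℝ} (hM : 0 ≤ M) : Rep r M (fun _ => 0) := ⟨[], by simp, by simpa using hM, fun X => by simp⟩

lemma Rep.add {r : ℕ} {M M' : ℝ} {F G : ℕ → ℝ} (hF : Rep r M F) (hG : Rep r M' G) : Rep r (M + M') (fun X => F X + G X) := by
  obtain ⟨l, h1, h2, h3⟩ := hF
  obtain ⟨l', h1', h2', h3'⟩ := hG
  refine ⟨l ++ l', ?_, ?_, fun X => ?_⟩
  · intro p hp
    rw [List.mem_append] at hp
    exact hp.elim (h1 p) (h1' p)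
  · rw [List.map_append, List.sum_append]
    exact add_le_add h2 h2'
  · show F X + G X = _
    rw [List.map_append, List.sum_append, h3, h3']

lemma Rep.mono {r : ℕ} {M M' : ℝ} {F : ℕ → ℝ} (hF : Rep r M F) (h : M ≤ M') : Rep r M' F := by
  obtain ⟨l, h1, h2, h3⟩ := hF
  exact ⟨l, h1, h2.trans h, h3⟩

lemma Rep.smul {r : ℕ} {M : ℝ} {F : ℕ → ℝ} (hF : Rep r M F) (c : ℝ) : Rep r (|c| * M) (fun X => c * F X) := by
  obtain ⟨l, h1, h2, h3⟩ := hF
  refine ⟨l.map (fun p => (p.1, c * p.2)), ?_, ?_, fun X => ?_⟩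
  · intro p hp
    rw [List.mem_map] at hp
    obtain ⟨a, ha, rfl⟩ := hp
    exact h1 a ha
  · rw [List.map_map]
    have e : ((fun p : ℕ × ℝ => |p.2|) ∘ fun p : ℕ × ℝ => (p.1, c * p.2)) = fun p : ℕ × ℝ => |c| * |p.2| := by
      funext p
      simp [abs_mul]
    rw [e, List.sum_map_mul_left]
    exact mul_le_mul_of_nonneg_left h2 (abs_nonneg _)
  · show c * F X = _
    rw [List.map_map, h3, ← List.sum_map_mul_left]
    congr 1
    apply List.map_congr_left
    intro p _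
    simp [mul_assoc]

lemma Rep.sum {r : ℕ} {ι : Type} (s : Finset ι) {M : ι → ℝ} {F : ι → ℕ → ℝ} (h : ∀ i ∈ s, Rep r (M i) (F i)) :
    Rep r (∑ i ∈ s, M i) (fun X => ∑ i ∈ s, F i X) := by
  classical
  induction s using Finset.induction_on with
  | empty => simpa using Rep.zero r le_rfl
  | insert a s ha ih =>
    have h1 := (h a (mem_insert_self _ _)).add (ih fun i hi => h i (mem_insert_of_mem hi))
    simpa only [sum_insert ha] using h1

lemma Rep.dil {r : ℕ} {M : ℝ} {F : ℕ → ℝ} (hF : Rep r M F) (b : ℕ) (hb : 1 ≤ b) : Rep r M (fun X => F (X / b)) := by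
  obtain ⟨l, h1, h2, h3⟩ := hF
  refine ⟨l.map (fun p => (b * p.1, p.2)), ?_, ?_, fun X => ?_⟩
  · intro p hp
    rw [List.mem_map] at hp
    obtain ⟨a, ha, rfl⟩ := hp
    exact Nat.mul_pos hb (h1 a ha)
  · rw [List.map_map]
    exact h2
  · show F (X / b) = _
    rw [List.map_map, h3]
    congr 1
    apply List.map_congr_left
    intro p _
    simp [Nat.div_div_eq_div_mul]

lemma SD_zero (r : ℕ) : SD r 0 = 0 := by unfold SD; simp

lemma SD_succ (r X Z : ℕ) (hZ : Z ≤ X) : ∑ j ∈ Icc 1 X, SD r (Z / j) = SD (r + 1) Z := by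
  have e : SD (r + 1) Z = ∑ j ∈ Icc 1 Z, SD r (Z / j) := by
    unfold SD
    have e1 := dir Z (fun _ m => (dk r m : ℝ))
    rw [← e1]
    apply sum_congr rfl
    intro n _
    rw [dk_succ, ← Nat.sum_div_divisors n (fun d => dk r d)]
    push_cast
    rfl
  rw [e]
  symm
  apply sum_subset (Icc_subset_Icc_right hZ)
  intro j h1 h2
  rw [mem_Icc] at h1 h2
  rw [Nat.div_eq_of_lt (by omega), SD_zero]

lemma list_sum_comm (s : Finset ℕ) (l : List (ℕ × ℝ)) (f : ℕ → ℕ × ℝ → ℝ) :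
    ∑ j ∈ s, (l.map (fun p => f j p)).sum = (l.map (fun p => ∑ j ∈ s, f j p)).sum := by
  induction l with
  | nil => simp
  | cons p l ih => simp only [List.map_cons, List.sum_cons, sum_add_distrib, ih]

lemma Rep.conv {r : ℕ} {M : ℝ} {F : ℕ → ℝ} (hF : Rep r M F) : Rep (r + 1) M (fun X => ∑ j ∈ Icc 1 X, F (X / j)) := by
  obtain ⟨l, h1, h2, h3⟩ := hF
  refine ⟨l, h1, h2, fun X => ?_⟩
  show ∑ j ∈ Icc 1 X, F (X / j) = _
  rw [sum_congr rfl (fun j _ => h3 (X / j)), list_sum_comm]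
  congr 1
  apply List.map_congr_left
  intro p hp
  rw [← mul_sum, ← SD_succ r X (X / p.1) (Nat.div_le_self _ _)]
  congr 1
  apply sum_congr rfl
  intro j _
  rw [Nat.div_div_eq_div_mul, Nat.div_div_eq_div_mul, mul_comm]

lemma dvd_iff' (g k m : ℕ) (hg : 1 ≤ g) : g ∣ k * m ↔ g / Nat.gcd g k ∣ m := by
  have h0 : 0 < Nat.gcd g k := Nat.gcd_pos_of_pos_left _ hg
  constructor
  · intro h
    have h1 : g / Nat.gcd g k ∣ (k / Nat.gcd g k) * m := by
      have h2 : Nat.gcd g k * (g / Nat.gcd g k) ∣ Nat.gcd g k * ((k / Nat.gcd g k) * m) := by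
        rw [Nat.mul_div_cancel' (Nat.gcd_dvd_left g k), ← mul_assoc, Nat.mul_div_cancel' (Nat.gcd_dvd_right g k)]
        exact h
      exact Nat.dvd_of_mul_dvd_mul_left h0 h2
    exact (Nat.coprime_div_gcd_div_gcd h0).dvd_of_dvd_mul_left h1
  · intro h
    obtain ⟨c, hc⟩ := h
    obtain ⟨k', hk'⟩ := Nat.gcd_dvd_right g k
    have : g = Nat.gcd g k * (g / Nat.gcd g k) := (Nat.mul_div_cancel' (Nat.gcd_dvd_left g k)).symm
    refine ⟨k' * c, ?_⟩
    rw [hc]
    calc k * (g / Nat.gcd g k * c) = (Nat.gcd g k * k') * (g / Nat.gcd g k * c) := by rw [← hk']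
      _ = (Nat.gcd g k * (g / Nat.gcd g k)) * (k' * c) := by ring
      _ = g * (k' * c) := by rw [← this]

lemma TT_step (r g X : ℕ) (hg : 1 ≤ g) : TT (r + 1) g X = ∑ k ∈ Icc 1 X, TT r (g / Nat.gcd g k) (X / k) := by
  have e1 := dir X (fun d m => if g ∣ d * m then (dk r m : ℝ) else 0)
  have e2 : ∀ n ∈ Icc 1 X, ∑ d ∈ n.divisors, (if g ∣ d * (n / d) then (dk r (n / d) : ℝ) else 0) = if g ∣ n then (dk (r + 1) n : ℝ) else 0 := by
    intro n hn
    rw [mem_Icc] at hn
    have e3 : ∀ d ∈ n.divisors, (if g ∣ d * (n / d) then (dk r (n / d) : ℝ) else 0) = if g ∣ n then (dk r (n / d) : ℝ) else 0 := by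
      intro d hd
      rw [Nat.mul_div_cancel' (Nat.dvd_of_mem_divisors hd)]
    rw [sum_congr rfl e3]
    split_ifs with h
    · rw [dk_succ, ← Nat.sum_div_divisors n (fun d => dk r d)]
      push_cast
      rfl
    · simp
  unfold TT
  rw [sum_filter, ← sum_congr rfl e2, e1]
  apply sum_congr rfl
  intro k _
  rw [sum_filter]
  apply sum_congr rfl
  intro m _
  congr 1
  rw [dvd_iff' g k m hg]

lemma moebius_sum (n : ℕ) (hn : 1 ≤ n) : ∑ f ∈ n.divisors, ((ArithmeticFunction.moebius f : ℤ) : ℝ) = if n = 1 then 1 else 0 := by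
  have h := congrArg (fun F : ArithmeticFunction ℤ => F n) ArithmeticFunction.moebius_mul_coe_zeta
  simp only [ArithmeticFunction.coe_mul_zeta_apply, ArithmeticFunction.one_apply] at h
  have h2 : ((∑ f ∈ n.divisors, ArithmeticFunction.moebius f : ℤ) : ℝ) = ((if n = 1 then 1 else 0 : ℤ) : ℝ) := by rw [h]
  rw [Int.cast_sum] at h2
  rw [h2]
  split_ifs <;> simp

lemma gcd_ind (g e k : ℕ) (hg : 1 ≤ g) (he : e ∣ g) (hk : 1 ≤ k) :
    (if Nat.gcd g k = e then (1 : ℝ) else 0) = ∑ f ∈ (g / e).divisors, if e * f ∣ k then ((ArithmeticFunction.moebius f : ℤ) : ℝ) else 0 := by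
  have he0 : 0 < e := Nat.pos_of_dvd_of_pos he hg
  obtain ⟨g', rfl⟩ := he
  have hg' : 0 < g' := Nat.pos_of_ne_zero (by rintro rfl; omega)
  rw [Nat.mul_div_cancel_left _ he0]
  by_cases h : e ∣ k
  · obtain ⟨k', rfl⟩ := h
    have hk' : 0 < k' := Nat.pos_of_ne_zero (by rintro rfl; omega)
    have e1 : ∑ f ∈ g'.divisors, (if e * f ∣ e * k' then ((ArithmeticFunction.moebius f : ℤ) : ℝ) else 0) =
        ∑ f ∈ (Nat.gcd g' k').divisors, ((ArithmeticFunction.moebius f : ℤ) : ℝ) := by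
      rw [← sum_filter]
      apply sum_congr _ (fun _ _ => rfl)
      ext f
      rw [mem_filter, Nat.mem_divisors, Nat.mem_divisors, Nat.dvd_gcd_iff, Nat.mul_dvd_mul_iff_left he0]
      have : Nat.gcd g' k' ≠ 0 := Nat.gcd_ne_zero_left (by omega)
      constructor
      · rintro ⟨⟨a, b⟩, c⟩; exact ⟨⟨a, c⟩, this⟩
      · rintro ⟨⟨a, c⟩, _⟩; exact ⟨⟨a, by omega⟩, c⟩
    rw [e1, moebius_sum _ (Nat.gcd_pos_of_pos_left _ hg'), Nat.gcd_mul_left]
    congr 1
    apply propext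
    constructor
    · intro h
      have : e * Nat.gcd g' k' = e * 1 := by rw [h, mul_one]
      exact Nat.eq_of_mul_eq_mul_left he0 this
    · intro h
      rw [h, mul_one]
  · rw [if_neg]
    · symm
      apply sum_eq_zero
      intro f _
      rw [if_neg]
      intro h2
      exact h ((Nat.dvd_mul_right e f).trans h2)
    · intro h2
      exact h (h2 ▸ Nat.gcd_dvd_right _ _)

lemma sum_mults (b X : ℕ) (hb : 1 ≤ b) (F : ℕ → ℝ) : ∑ k ∈ Icc 1 X, (if b ∣ k then F (X / k) else 0) = ∑ j ∈ Icc 1 (X / b), F (X / b / j) := by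
  rw [← sum_filter]
  apply sum_nbij' (fun k => k / b) (fun j => b * j)
  · intro k hk
    rw [mem_filter, mem_Icc] at hk
    obtain ⟨⟨h1, h2⟩, c, rfl⟩ := hk
    rw [mem_Icc, Nat.mul_div_cancel_left _ (by omega)]
    have : 0 < c := Nat.pos_of_ne_zero (by rintro rfl; omega)
    refine ⟨this, ?_⟩
    rw [Nat.le_div_iff_mul_le (by omega), mul_comm]
    exact h2
  · intro j hj
    rw [mem_Icc, Nat.le_div_iff_mul_le (by omega)] at hj
    rw [mem_filter, mem_Icc]
    refine ⟨⟨Nat.mul_pos hb hj.1, by rw [mul_comm]; exact hj.2⟩, Nat.dvd_mul_right _ _⟩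
  · intro k hk
    rw [mem_filter] at hk
    exact Nat.mul_div_cancel' hk.2
  · intro j _
    exact Nat.mul_div_cancel_left _ (by omega)
  · intro k hk
    rw [mem_filter] at hk
    obtain ⟨_, c, rfl⟩ := hk
    rw [Nat.mul_div_cancel_left _ (by omega), Nat.div_div_eq_div_mul]

lemma TT_step2 (r g X : ℕ) (hg : 1 ≤ g) : TT (r + 1) g X = ∑ e ∈ g.divisors, ∑ f ∈ (g / e).divisors,
    ((ArithmeticFunction.moebius f : ℤ) : ℝ) * ∑ j ∈ Icc 1 (X / (e * f)), TT r (g / e) (X / (e * f) / j) := by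
  rw [TT_step r g X hg]
  have e1 : ∀ k ∈ Icc 1 X, TT r (g / Nat.gcd g k) (X / k) = ∑ e ∈ g.divisors, ∑ f ∈ (g / e).divisors,
      ((ArithmeticFunction.moebius f : ℤ) : ℝ) * (if e * f ∣ k then TT r (g / e) (X / k) else 0) := by
    intro k hk
    rw [mem_Icc] at hk
    have e2 : TT r (g / Nat.gcd g k) (X / k) = ∑ e ∈ g.divisors, (if Nat.gcd g k = e then (1 : ℝ) else 0) * TT r (g / e) (X / k) := by
      rw [sum_eq_single (Nat.gcd g k)]
      · rw [if_pos rfl, one_mul]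
      · intro e _ hne
        rw [if_neg (Ne.symm hne), zero_mul]
      · intro h
        exact absurd (Nat.mem_divisors.2 ⟨Nat.gcd_dvd_left g k, by omega⟩) h
    rw [e2]
    apply sum_congr rfl
    intro e he
    rw [gcd_ind g e k hg (Nat.dvd_of_mem_divisors he) hk.1, sum_mul]
    apply sum_congr rfl
    intro f _
    split_ifs <;> simp
  rw [sum_congr rfl e1, sum_comm]
  apply sum_congr rfl
  intro e he
  rw [sum_comm]
  apply sum_congr rfl
  intro f hf
  rw [← mul_sum]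
  congr 1
  have he0 : 0 < e := Nat.pos_of_mem_divisors he
  have hf0 : 0 < f := Nat.pos_of_mem_divisors hf
  exact sum_mults (e * f) X (Nat.mul_pos he0 hf0) (fun Z => TT r (g / e) Z)

lemma card_div_le (n : ℕ) : (n.divisors.card : ℝ) ≤ n := by exact_mod_cast Nat.card_divisors_le_self n

theorem TT_rep (r : ℕ) : ∀ g : ℕ, 1 ≤ g → Rep r ((g : ℝ) ^ (2 * r)) (TT r g) := by
  induction r with
  | zero =>
    intro g hg
    rcases Nat.eq_or_lt_of_le hg with h | h
    · subst h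
      refine ⟨[(1, 1)], by simp, by simp, fun X => ?_⟩
      simp [TT, SD]
    · refine ⟨[], by simp, by simp, fun X => ?_⟩
      simp only [List.map_nil, List.sum_nil]
      unfold TT
      apply sum_eq_zero
      intro n hn
      rw [mem_filter] at hn
      unfold dk
      rw [pow_zero, ArithmeticFunction.one_apply, if_neg, Nat.cast_zero]
      rintro rfl
      have := Nat.dvd_one.1 hn.2
      omega
  | succ r ih =>
    intro g hg
    have h1 : Rep (r + 1) (∑ e ∈ g.divisors, ∑ f ∈ (g / e).divisors, |((ArithmeticFunction.moebius f : ℤ) : ℝ)| * ((g / e : ℕ) : ℝ) ^ (2 * r))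
        (fun X => ∑ e ∈ g.divisors, ∑ f ∈ (g / e).divisors,
          ((ArithmeticFunction.moebius f : ℤ) : ℝ) * ∑ j ∈ Icc 1 (X / (e * f)), TT r (g / e) (X / (e * f) / j)) := by
      apply Rep.sum
      intro e he
      apply Rep.sum
      intro f hf
      have he0 : 0 < e := Nat.pos_of_mem_divisors he
      have hf0 : 0 < f := Nat.pos_of_mem_divisors hf
      have hge : 1 ≤ g / e := Nat.div_pos (Nat.divisor_le he) he0
      exact ((((ih (g / e) hge).conv).dil (e * f) (Nat.mul_pos he0 hf0)).smul _)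
    have e2 : TT (r + 1) g = fun X => ∑ e ∈ g.divisors, ∑ f ∈ (g / e).divisors,
          ((ArithmeticFunction.moebius f : ℤ) : ℝ) * ∑ j ∈ Icc 1 (X / (e * f)), TT r (g / e) (X / (e * f) / j) := by
      funext X
      exact TT_step2 r g X hg
    rw [e2]
    apply h1.mono
    have h3 : ∀ e ∈ g.divisors, ∑ f ∈ (g / e).divisors, |((ArithmeticFunction.moebius f : ℤ) : ℝ)| * ((g / e : ℕ) : ℝ) ^ (2 * r) ≤ g * (g : ℝ) ^ (2 * r) := by
      intro e he
      have hge : ((g / e : ℕ) : ℝ) ≤ g := by exact_mod_cast Nat.div_le_self g e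
      have h4 : ∀ f ∈ (g / e).divisors, |((ArithmeticFunction.moebius f : ℤ) : ℝ)| * ((g / e : ℕ) : ℝ) ^ (2 * r) ≤ (g : ℝ) ^ (2 * r) := by
        intro f _
        have h5 : |((ArithmeticFunction.moebius f : ℤ) : ℝ)| ≤ 1 := by
          have := ArithmeticFunction.abs_moebius_le_one (n := f)
          exact_mod_cast this
        calc |((ArithmeticFunction.moebius f : ℤ) : ℝ)| * ((g / e : ℕ) : ℝ) ^ (2 * r) ≤ 1 * (g : ℝ) ^ (2 * r) :=
              mul_le_mul h5 (pow_le_pow_left₀ (Nat.cast_nonneg _) hge _) (by positivity) zero_le_one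
          _ = _ := one_mul _
      refine (sum_le_card_nsmul _ _ _ h4).trans ?_
      rw [nsmul_eq_mul]
      exact mul_le_mul_of_nonneg_right ((card_div_le _).trans hge) (by positivity)
    refine (sum_le_card_nsmul _ _ _ h3).trans ?_
    rw [nsmul_eq_mul]
    calc (g.divisors.card : ℝ) * (g * (g : ℝ) ^ (2 * r)) ≤ g * (g * (g : ℝ) ^ (2 * r)) := mul_le_mul_of_nonneg_right (card_div_le g) (by positivity)
      _ = (g : ℝ) ^ (2 * (r + 1)) := by ring

end Pool.Agent.TH935.LP
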