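import Pool.Agent.TH935.LP.W4

set_option autoImplicit false

/-! Short sums of the divisor functions over multiples. -/

namespace Pool.Agent.TH935.LP
open Finset Polynomial
open Pool.Agent.TH935.LD (dk TT)

lemma piltz' (r : ℕ) : ∃ P : ℝ[X], P.natDegree ≤ r ∧ ∃ C δ : ℝ, 0 ≤ C ∧ 0 < δ ∧ δ ≤ 1 / 2 ∧ ∀ y : ℝ, 0 < y →
    |SD (r + 1) ⌊y⌋₊ - y * P.eval (Real.log y)| ≤ C * y ^ (1 - δ) := by
  obtain ⟨P, hP, C, δ, hC, hδ, h⟩ := piltz r
  obtain ⟨e, he⟩ : ∃ e, e = min δ (1 / 2) := ⟨_, rfl⟩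
  have he0 : 0 < e := by rw [he]; exact lt_min hδ (by norm_num)
  obtain ⟨c, hc, h2⟩ := poly_bd (P.comp (-X)) e he0
  refine ⟨P, hP, C + c, e, by positivity, he0, by rw [he]; exact min_le_right _ _, fun y hy => ?_⟩
  rcases le_or_gt 1 y with h1 | h1
  · have h3 : |SD (r + 1) ⌊y⌋₊ / y - P.eval (Real.log y)| ≤ C * y ^ (-δ) := h y h1
    have e1 : SD (r + 1) ⌊y⌋₊ - y * P.eval (Real.log y) = y * (SD (r + 1) ⌊y⌋₊ / y - P.eval (Real.log y)) := by
      field_simp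
    rw [e1, abs_mul, abs_of_pos hy]
    have h4 : y ^ (-δ) ≤ y ^ (-e) := rp_mono h1 (by rw [he]; exact min_le_left _ _)
    calc y * |SD (r + 1) ⌊y⌋₊ / y - P.eval (Real.log y)| ≤ y * (C * y ^ (-e)) :=
          mul_le_mul_of_nonneg_left (h3.trans (mul_le_mul_of_nonneg_left h4 hC)) hy.le
      _ = C * (y ^ (1 : ℝ) * y ^ (-e)) := by rw [Real.rpow_one]; ring
      _ = C * y ^ (1 - e) := by rw [← Real.rpow_add hy]; congr 1
      _ ≤ (C + c) * y ^ (1 - e) := by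
          apply mul_le_mul_of_nonneg_right _ (by positivity)
          linarith
  · have h3 : ⌊y⌋₊ = 0 := Nat.floor_eq_zero.2 h1
    rw [h3, SD_zero, zero_sub, abs_neg, abs_mul, abs_of_pos hy]
    have hy1 : 1 ≤ 1 / y := by rw [le_div_iff₀ hy]; linarith
    have h4 := h2 (1 / y) hy1
    rw [eval_comp, eval_neg, eval_X, one_div, Real.log_inv, neg_neg, Real.inv_rpow hy.le, ← Real.rpow_neg hy.le] at h4
    calc y * |P.eval (Real.log y)| ≤ y * (c * y ^ (-e)) := mul_le_mul_of_nonneg_left h4 hy.le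
      _ = c * (y ^ (1 : ℝ) * y ^ (-e)) := by rw [Real.rpow_one]; ring
      _ = c * y ^ (1 - e) := by rw [← Real.rpow_add hy]; congr 1
      _ ≤ (C + c) * y ^ (1 - e) := by
          apply mul_le_mul_of_nonneg_right _ (by positivity)
          linarith

lemma two_rpow_le {x t : ℝ} (hx : 0 ≤ x) (ht0 : 0 ≤ t) (ht : t ≤ 1) : (2 * x) ^ t ≤ 2 * x ^ t := by
  rw [Real.mul_rpow (by norm_num) hx]
  apply mul_le_mul_of_nonneg_right _ (Real.rpow_nonneg hx _)
  calc (2 : ℝ) ^ t ≤ 2 ^ (1 : ℝ) := Real.rpow_le_rpow_of_exponent_le (by norm_num) ht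
    _ = 2 := Real.rpow_one 2

lemma fin_bound (u v w C D S T : ℝ) (hC : 0 ≤ C) (hD : 0 ≤ D) (hS : 0 ≤ S) (hT : 0 ≤ T) (h1 : |v| ≤ C * S) (h2 : |u| ≤ C * (2 * S))
    (h3 : |w| ≤ D * T) : |u - v + w| ≤ (3 * C + D) * (S + T) := by
  have a1 := abs_add_le (u - v) w
  have a2 := abs_sub u v
  have a3 := mul_nonneg hC hT
  have a4 := mul_nonneg hD hS
  calc |u - v + w| ≤ |u| + |v| + |w| := by linarith
    _ ≤ C * (2 * S) + C * S + D * T := by linarith
    _ ≤ (3 * C + D) * (S + T) := by nlinarith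

/-- the increments of one dilated summatory function -/
lemma one_diff (r : ℕ) : ∃ Q : ℝ[X], Q.natDegree ≤ r ∧ ∃ δ : ℝ, 0 < δ ∧ δ ≤ 1 / 2 ∧ ∀ ε : ℝ, 0 < ε → ε ≤ 1 → ∃ K : ℝ, 0 ≤ K ∧
    ∀ b X H n : ℕ, 1 ≤ b → 1 ≤ H → H ≤ X → X ≤ n → n ≤ X + H →
    |SD (r + 1) ((X + H) / b) - SD (r + 1) (X / b) - H * (1 / b * Q.eval (Real.log n - Real.log b))| ≤
      K * ((X : ℝ) ^ (1 - δ) + (H : ℝ) ^ 2 / X * (X : ℝ) ^ ε) := by
  obtain ⟨P, hP, C, δ, hC, hδ, hδ2, h⟩ := piltz' r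
  refine ⟨P + derivative P, ?_, δ, hδ, hδ2, fun ε hε hε1 => ?_⟩
  · refine (natDegree_add_le _ _).trans (max_le hP ?_)
    exact (natDegree_derivative_le P).trans (by omega)
  obtain ⟨Q, hQ⟩ : ∃ Q, Q = P + derivative P := ⟨_, rfl⟩
  rw [← hQ]
  obtain ⟨L, hL, hl⟩ := poly_lip Q
  obtain ⟨c1, hc1, b1⟩ := poly_bd ((1 + 2 * X : ℝ[X]) ^ Q.natDegree) 1 one_pos
  obtain ⟨c2, hc2, b2⟩ := poly_bd ((1 + 2 * X : ℝ[X]) ^ Q.natDegree) ε hε
  refine ⟨3 * C + 2 * L * c1 * c2, by positivity, fun b X H n hb hH hHX hXn hnX => ?_⟩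
  have hb0 : (0 : ℝ) < b := by exact_mod_cast hb
  have hb1 : (1 : ℝ) ≤ b := by exact_mod_cast hb
  have hX1 : 1 ≤ X := hH.trans hHX
  have hX0 : (0 : ℝ) < X := by exact_mod_cast hX1
  have hX1' : (1 : ℝ) ≤ X := by exact_mod_cast hX1
  have hH0 : (0 : ℝ) < H := by exact_mod_cast hH
  have hHX' : (H : ℝ) ≤ X := by exact_mod_cast hHX
  have hXn' : (X : ℝ) ≤ n := by exact_mod_cast hXn
  have hnX' : (n : ℝ) ≤ X + H := by exact_mod_cast hnX
  have hn0 : (0 : ℝ) < n := by linarith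
  obtain ⟨y1, hy1⟩ : ∃ y1 : ℝ, y1 = X / b := ⟨_, rfl⟩
  obtain ⟨y2, hy2⟩ : ∃ y2 : ℝ, y2 = (X + H) / b := ⟨_, rfl⟩
  have hy10 : 0 < y1 := by rw [hy1]; positivity
  have hy12 : y1 < y2 := by
    rw [hy1, hy2]
    apply div_lt_div_of_pos_right _ hb0
    linarith
  have hy20 : 0 < y2 := hy10.trans hy12
  have f1 : ⌊y1⌋₊ = X / b := by rw [hy1]; exact Nat.floor_div_eq_div X b
  have f2 : ⌊y2⌋₊ = (X + H) / b := by
    rw [hy2]
    have := Nat.floor_div_eq_div (K := ℝ) (X + H) b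
    push_cast at this
    exact this
  have g1 := h y1 hy10
  have g2 := h y2 hy20
  rw [f1] at g1
  rw [f2] at g2
  have h1δ : 0 ≤ 1 - δ := by linarith
  have g1' : C * y1 ^ (1 - δ) ≤ C * (X : ℝ) ^ (1 - δ) := by
    apply mul_le_mul_of_nonneg_left _ hC
    apply Real.rpow_le_rpow hy10.le _ h1δ
    rw [hy1]
    exact div_le_self hX0.le hb1
  have g2' : C * y2 ^ (1 - δ) ≤ C * (2 * (X : ℝ) ^ (1 - δ)) := by
    apply mul_le_mul_of_nonneg_left _ hC
    refine le_trans ?_ (two_rpow_le hX0.le h1δ (by linarith))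
    apply Real.rpow_le_rpow hy20.le _ h1δ
    rw [hy2, div_le_iff₀ hb0]
    nlinarith
  -- the mean value theorem
  have hder : ∀ x : ℝ, 0 < x → HasDerivAt (fun t : ℝ => t * P.eval (Real.log t)) (Q.eval (Real.log x)) x := by
    intro x hx
    have d1 : HasDerivAt (fun t : ℝ => P.eval (Real.log t)) ((derivative P).eval (Real.log x) * x⁻¹) x :=
      (P.hasDerivAt (Real.log x)).comp x (Real.hasDerivAt_log hx.ne')
    refine ((hasDerivAt_id' x).fun_mul d1).congr_deriv ?_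
    rw [hQ, eval_add, one_mul, mul_comm ((derivative P).eval (Real.log x)), ← mul_assoc, mul_inv_cancel₀ hx.ne', one_mul]
  obtain ⟨ξ, hξ, hslope⟩ := exists_hasDerivAt_eq_slope (fun t : ℝ => t * P.eval (Real.log t)) (fun x => Q.eval (Real.log x)) hy12
    (fun x hx => (hder x (hy10.trans_le hx.1)).continuousAt.continuousWithinAt) (fun x hx => hder x (hy10.trans hx.1))
  have hξ0 : 0 < ξ := hy10.trans hξ.1
  have hdiff : y2 - y1 = H / b := by rw [hy1, hy2]; field_simp; ring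
  have hmv : y2 * P.eval (Real.log y2) - y1 * P.eval (Real.log y1) = (H / b) * Q.eval (Real.log ξ) := by
    rw [hslope, hdiff, mul_div_cancel₀]
    exact (by positivity : (H / b : ℝ) ≠ 0)
  -- the logarithms
  have hlb : 0 ≤ Real.log b := Real.log_nonneg hb1
  have hlX : 0 ≤ Real.log X := Real.log_nonneg hX1'
  have l1 : Real.log y1 = Real.log X - Real.log b := by rw [hy1, Real.log_div hX0.ne' hb0.ne']
  have l2 : Real.log y2 = Real.log (X + H) - Real.log b := by rw [hy2, Real.log_div (by positivity) hb0.ne']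
  have l3 : Real.log y1 ≤ Real.log ξ := Real.log_le_log hy10 hξ.1.le
  have l4 : Real.log ξ ≤ Real.log y2 := Real.log_le_log hξ0 hξ.2.le
  have l5 : Real.log X ≤ Real.log n := Real.log_le_log hX0 hXn'
  have l6 : Real.log n ≤ Real.log (X + H) := Real.log_le_log hn0 hnX'
  have l7 : Real.log (X + H) - Real.log X ≤ H / X := by
    rw [← Real.log_div (by positivity) hX0.ne']
    have := Real.log_le_sub_one_of_pos (x := ((X : ℝ) + H) / X) (by positivity)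
    refine this.trans (le_of_eq ?_)
    field_simp
    ring
  have l8 : Real.log (X + H) ≤ Real.log (2 * X) := Real.log_le_log (by positivity) (by linarith)
  have hlip := hl (Real.log ξ) (Real.log n - Real.log b)
  have q1 : |Real.log ξ - (Real.log n - Real.log b)| ≤ H / X := by
    rw [abs_le]
    constructor <;> linarith
  have q2 : 1 + |Real.log ξ| + |Real.log n - Real.log b| ≤ (1 + 2 * Real.log (2 * X)) * (1 + 2 * Real.log b) := by
    have a1 : |Real.log ξ| ≤ Real.log (2 * X) + Real.log b := by rw [abs_le]; constructor <;> linarith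
    have a2 : |Real.log n - Real.log b| ≤ Real.log (2 * X) + Real.log b := by rw [abs_le]; constructor <;> linarith
    have a3 : 0 ≤ Real.log (2 * X) := by linarith
    nlinarith [mul_nonneg a3 hlb]
  have q3 : (1 + |Real.log ξ| + |Real.log n - Real.log b|) ^ Q.natDegree ≤ (c2 * (2 * (X : ℝ) ^ ε)) * (c1 * b) := by
    have a1 : (1 + |Real.log ξ| + |Real.log n - Real.log b|) ^ Q.natDegree ≤
        ((1 + 2 * Real.log (2 * X)) * (1 + 2 * Real.log b)) ^ Q.natDegree :=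
      pow_le_pow_left₀ (by positivity) q2 _
    refine a1.trans ?_
    rw [mul_pow]
    have a2 := b2 (2 * X) (by linarith)
    have a3 := b1 b hb1
    rw [eval_pow, eval_add, eval_mul, eval_X, eval_one, eval_ofNat] at a2 a3
    rw [Real.rpow_one] at a3
    have a4 : (1 + 2 * Real.log (2 * X)) ^ Q.natDegree ≤ c2 * (2 * (X : ℝ) ^ ε) :=
      ((le_abs_self _).trans a2).trans (mul_le_mul_of_nonneg_left (two_rpow_le hX0.le hε.le hε1) hc2)
    have a5 : (1 + 2 * Real.log b) ^ Q.natDegree ≤ c1 * b := (le_abs_self _).trans a3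
    exact mul_le_mul a4 a5 (by positivity) (by positivity)
  have q4 : |(H / b : ℝ) * Q.eval (Real.log ξ) - H * (1 / b * Q.eval (Real.log n - Real.log b))| ≤
      2 * L * c1 * c2 * ((H : ℝ) ^ 2 / X * (X : ℝ) ^ ε) := by
    have a1 : (H / b : ℝ) * Q.eval (Real.log ξ) - H * (1 / b * Q.eval (Real.log n - Real.log b)) =
        (H / b) * (Q.eval (Real.log ξ) - Q.eval (Real.log n - Real.log b)) := by ring
    rw [a1, abs_mul, abs_of_pos (by positivity : (0 : ℝ) < H / b)]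
    calc (H / b : ℝ) * |Q.eval (Real.log ξ) - Q.eval (Real.log n - Real.log b)| ≤ (H / b) * (L * ((H / X) * ((c2 * (2 * (X : ℝ) ^ ε)) * (c1 * b)))) := by
          apply mul_le_mul_of_nonneg_left _ (by positivity)
          refine hlip.trans (mul_le_mul_of_nonneg_left ?_ hL)
          exact mul_le_mul q1 q3 (by positivity) (by positivity)
      _ = 2 * L * c1 * c2 * ((H : ℝ) ^ 2 / X * (X : ℝ) ^ ε) := by field_simp
  have e1 : SD (r + 1) ((X + H) / b) - SD (r + 1) (X / b) - H * (1 / b * Q.eval (Real.log n - Real.log b)) =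
      (SD (r + 1) ((X + H) / b) - y2 * P.eval (Real.log y2)) - (SD (r + 1) (X / b) - y1 * P.eval (Real.log y1)) +
      ((H / b : ℝ) * Q.eval (Real.log ξ) - H * (1 / b * Q.eval (Real.log n - Real.log b))) := by
    rw [← hmv]; ring
  rw [e1]
  exact fin_bound _ _ _ C (2 * L * c1 * c2) ((X : ℝ) ^ (1 - δ)) ((H : ℝ) ^ 2 / X * (X : ℝ) ^ ε) hC (by positivity) (by positivity)
    (by positivity) (g1.trans g1') (g2.trans g2') q4

/-- the polynomial of a combination -/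
noncomputable def LP (Q : ℝ[X]) (l : List (ℕ × ℝ)) : ℝ[X] :=
  (l.map (fun p : ℕ × ℝ => Polynomial.C (p.2 * (1 / (p.1 : ℝ))) * Q.comp (X - Polynomial.C (Real.log (p.1 : ℝ))))).sum

lemma LP_deg (Q : ℝ[X]) (m : ℕ) (hQ : Q.natDegree ≤ m) (l : List (ℕ × ℝ)) : (LP Q l).natDegree ≤ m := by
  unfold LP
  induction l with
  | nil => simp
  | cons p l ih =>
    rw [List.map_cons, List.sum_cons]
    refine (natDegree_add_le _ _).trans (max_le ?_ ih)
    refine (natDegree_C_mul_le _ _).trans (natDegree_comp_le.trans ?_)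
    rw [natDegree_X_sub_C, mul_one]
    exact hQ

lemma LP_eval (Q : ℝ[X]) (l : List (ℕ × ℝ)) (u : ℝ) : (LP Q l).eval u = (l.map (fun p => p.2 * (1 / p.1 * Q.eval (u - Real.log p.1)))).sum := by
  unfold LP
  induction l with
  | nil => simp
  | cons p l ih =>
    rw [List.map_cons, List.sum_cons, eval_add, ih, List.map_cons, List.sum_cons]
    congr 1
    rw [eval_mul, eval_C, eval_comp, eval_sub, eval_X, eval_C]
    ring

lemma list_abs (l : List (ℕ × ℝ)) (f : ℕ × ℝ → ℝ) (B : ℝ) (hf : ∀ p ∈ l, |f p| ≤ B) :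
    |(l.map (fun p => p.2 * f p)).sum| ≤ (l.map (fun p => |p.2|)).sum * B := by
  induction l with
  | nil => simp
  | cons p l ih =>
    rw [List.map_cons, List.sum_cons, List.map_cons, List.sum_cons, add_mul]
    refine (abs_add_le _ _).trans (add_le_add ?_ (ih fun q hq => hf q (List.mem_cons_of_mem _ hq)))
    rw [abs_mul]
    exact mul_le_mul_of_nonneg_left (hf p (List.mem_cons_self)) (abs_nonneg _)

theorem rep_diff (r : ℕ) : ∃ δ : ℝ, 0 < δ ∧ δ ≤ 1 / 2 ∧ ∃ R : List (ℕ × ℝ) → ℝ[X], (∀ l, (R l).natDegree ≤ r) ∧ ∀ ε : ℝ, 0 < ε → ε ≤ 1 →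
    ∃ K : ℝ, 0 ≤ K ∧ ∀ l : List (ℕ × ℝ), (∀ p ∈ l, 1 ≤ p.1) → ∀ X H n : ℕ, 1 ≤ H → H ≤ X → X ≤ n → n ≤ X + H →
    |(l.map (fun p => p.2 * SD (r + 1) ((X + H) / p.1))).sum - (l.map (fun p => p.2 * SD (r + 1) (X / p.1))).sum - H * (R l).eval (Real.log n)| ≤
      (l.map (fun p => |p.2|)).sum * (K * ((X : ℝ) ^ (1 - δ) + (H : ℝ) ^ 2 / X * (X : ℝ) ^ ε)) := by
  obtain ⟨Q, hQ, δ, hδ, hδ2, h⟩ := one_diff r
  refine ⟨δ, hδ, hδ2, LP Q, LP_deg Q r hQ, fun ε hε hε1 => ?_⟩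
  obtain ⟨K, hK, h1⟩ := h ε hε hε1
  refine ⟨K, hK, fun l hl X H n hH hHX hXn hnX => ?_⟩
  have e : (l.map (fun p => p.2 * SD (r + 1) ((X + H) / p.1))).sum - (l.map (fun p => p.2 * SD (r + 1) (X / p.1))).sum - H * (LP Q l).eval (Real.log n) =
      (l.map (fun p => p.2 * (SD (r + 1) ((X + H) / p.1) - SD (r + 1) (X / p.1) - H * (1 / p.1 * Q.eval (Real.log n - Real.log p.1))))).sum := by
    rw [LP_eval]
    clear hl
    induction l with
    | nil => simp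
    | cons p l ih =>
      simp only [List.map_cons, List.sum_cons]
      rw [← ih]
      ring
  rw [e]
  exact list_abs l _ _ fun p hp => h1 p.1 X H n (hl p hp) hH hHX hXn hnX

/-- the short sums of `d_r` over the multiples of `g` -/
theorem TT_diff (r : ℕ) : ∃ δ : ℝ, 0 < δ ∧ δ ≤ 1 / 2 ∧ ∃ R : ℕ → ℝ[X], (∀ g, (R g).natDegree ≤ r) ∧ ∀ ε : ℝ, 0 < ε → ε ≤ 1 →
    ∃ K : ℝ, 0 ≤ K ∧ ∀ g : ℕ, 1 ≤ g → ∀ X H n : ℕ, 1 ≤ H → H ≤ X → X ≤ n → n ≤ X + H →
    |TT (r + 1) g (X + H) - TT (r + 1) g X - H * (R g).eval (Real.log n)| ≤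
      (g : ℝ) ^ (2 * (r + 1)) * (K * ((X : ℝ) ^ (1 - δ) + (H : ℝ) ^ 2 / X * (X : ℝ) ^ ε)) := by
  obtain ⟨δ, hδ, hδ2, R, hR, h⟩ := rep_diff r
  have h0 : ∀ g : ℕ, ∃ l : List (ℕ × ℝ), 1 ≤ g → (∀ p ∈ l, 1 ≤ p.1) ∧ (l.map (fun p => |p.2|)).sum ≤ (g : ℝ) ^ (2 * (r + 1)) ∧
      ∀ X, TT (r + 1) g X = (l.map (fun p => p.2 * SD (r + 1) (X / p.1))).sum := by
    intro g
    rcases Nat.lt_or_ge g 1 with hg | hg
    · exact ⟨[], fun h => absurd h (by omega)⟩
    · obtain ⟨l, a⟩ := TT_rep (r + 1) g hg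
      exact ⟨l, fun _ => a⟩
  choose l hl using h0
  refine ⟨δ, hδ, hδ2, fun g => R (l g), fun g => hR _, fun ε hε hε1 => ?_⟩
  obtain ⟨K, hK, h1⟩ := h ε hε hε1
  refine ⟨K, hK, fun g hg X H n hH hHX hXn hnX => ?_⟩
  obtain ⟨a1, a2, a3⟩ := hl g hg
  rw [a3, a3]
  refine (h1 (l g) a1 X H n hH hHX hXn hnX).trans ?_
  exact mul_le_mul_of_nonneg_right a2 (by positivity)

end Pool.Agent.TH935.LP
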