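import Pool.Agent.TH935.LP.W5

set_option autoImplicit false

/-! The smooth weights are polynomials in `log n`, up to a power saving. -/

namespace Pool.Agent.TH935.LP
open Finset Polynomial
open Pool.Agent.TH935.LD (dk TT card_mult dk_succ)

/-- the averaged weights -/
noncomputable def WW (E : ℕ → ℝ) (Y q n : ℕ) : ℝ := ∑ a ∈ (Icc 1 n).filter (fun a => a * Y < n), E a / (Nat.lcm a q : ℝ)

/-- the error -/
noncomputable def Er (E : ℕ → ℝ) (Y n : ℕ) : ℝ := ∑ a ∈ (Icc 1 n).filter (fun a => a * Y < n), E a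

/-- the properties of the coefficients -/
structure Hyp (E : ℕ → ℝ) (Y r : ℕ) : Prop where
  nn : ∀ a, 0 ≤ E a
  id : ∀ n, Y ^ r < n → (dk r n : ℝ) = ∑ a ∈ n.divisors.filter (fun a => a * Y < n), E a
  le : ∀ a, E a ≤ r * dk (r - 1) a

lemma T_inc (E : ℕ → ℝ) (Y r q X H : ℕ) (hE : Hyp E Y r) (hX : Y ^ r ≤ X) :
    TT r q (X + H) - TT r q X = ∑ a ∈ Icc 1 (X + H), E a * (((Ioc X (X + H)).filter (fun n => Nat.lcm a q ∣ n ∧ a * Y < n)).card : ℝ) := by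
  have h1 : TT r q (X + H) - TT r q X = ∑ n ∈ Ioc X (X + H), if q ∣ n then (dk r n : ℝ) else 0 := by
    unfold TT
    rw [sum_filter, sum_filter]
    have h2 : Icc 1 (X + H) = Icc 1 X ∪ Ioc X (X + H) := by
      ext n
      rw [mem_union, mem_Icc, mem_Icc, mem_Ioc]
      omega
    rw [h2, sum_union]
    · ring
    · rw [disjoint_left]
      intro n h3 h4
      rw [mem_Icc] at h3
      rw [mem_Ioc] at h4
      omega
  rw [h1]
  have h2 : ∀ n ∈ Ioc X (X + H), (if q ∣ n then (dk r n : ℝ) else 0) = ∑ a ∈ Icc 1 (X + H), if Nat.lcm a q ∣ n ∧ a * Y < n then E a else 0 := by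
    intro n hn
    rw [mem_Ioc] at hn
    rw [hE.id n (by omega), ← sum_filter]
    split_ifs with h
    · apply sum_congr _ (fun _ _ => rfl)
      ext a
      rw [mem_filter, mem_filter, Nat.mem_divisors, mem_Icc]
      constructor
      · rintro ⟨⟨b1, b2⟩, b3⟩
        exact ⟨⟨Nat.pos_of_dvd_of_pos b1 (by omega), (Nat.le_of_dvd (by omega) b1).trans hn.2⟩, Nat.lcm_dvd b1 h, b3⟩
      · rintro ⟨_, b1, b3⟩
        exact ⟨⟨(Nat.dvd_lcm_left a q).trans b1, by omega⟩, b3⟩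
    · symm
      apply sum_eq_zero
      intro a ha
      rw [mem_filter] at ha
      exact absurd ((Nat.dvd_lcm_right a q).trans ha.2.1) h
  rw [sum_congr rfl h2, sum_comm]
  apply sum_congr rfl
  intro a _
  rw [← sum_filter, sum_const, nsmul_eq_mul]
  ring

lemma count_mult (L X H : ℕ) (hL : 1 ≤ L) :
    (H : ℝ) / L - 1 ≤ (((Ioc X (X + H)).filter (fun n => L ∣ n)).card : ℝ) ∧ (((Ioc X (X + H)).filter (fun n => L ∣ n)).card : ℝ) ≤ (H : ℝ) / L + 1 := by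
  have hL0 : (0 : ℝ) < L := by exact_mod_cast hL
  have h1 : (((Ioc X (X + H)).filter (fun n => L ∣ n)).card : ℝ) = (((X + H) / L : ℕ) : ℝ) - ((X / L : ℕ) : ℝ) := by
    have h2 : (Icc 1 (X + H)).filter (fun n => L ∣ n) = (Icc 1 X).filter (fun n => L ∣ n) ∪ (Ioc X (X + H)).filter (fun n => L ∣ n) := by
      rw [← filter_union]
      congr 1
      ext n
      rw [mem_union, mem_Icc, mem_Icc, mem_Ioc]
      omega
    have h3 := congrArg Finset.card h2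
    rw [card_union_of_disjoint, card_mult L (X + H) hL, card_mult L X hL] at h3
    · rw [h3]; push_cast; ring
    · rw [disjoint_left]
      intro n h3 h4
      rw [mem_filter, mem_Icc] at h3
      rw [mem_filter, mem_Ioc] at h4
      omega
  rw [h1, ← Nat.floor_div_eq_div (K := ℝ), ← Nat.floor_div_eq_div (K := ℝ)]
  have a1 := Nat.floor_le (by positivity : (0 : ℝ) ≤ ((X + H : ℕ) : ℝ) / L)
  have a2 := Nat.lt_floor_add_one (((X + H : ℕ) : ℝ) / L)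
  have a3 := Nat.floor_le (by positivity : (0 : ℝ) ≤ (X : ℝ) / L)
  have a4 := Nat.lt_floor_add_one ((X : ℝ) / L)
  have a5 : ((X + H : ℕ) : ℝ) / L = X / L + H / L := by push_cast; ring
  rw [a5] at a1 a2 ⊢
  constructor <;> linarith

lemma lcm_pos' (a q : ℕ) (ha : 1 ≤ a) (hq : 1 ≤ q) : 1 ≤ Nat.lcm a q := Nat.lcm_pos ha hq

lemma T_upper (E : ℕ → ℝ) (Y r q X H : ℕ) (hE : Hyp E Y r) (hX : Y ^ r ≤ X) (hq : 1 ≤ q) :
    TT r q (X + H) - TT r q X ≤ H * WW E Y q (X + H) + Er E Y (X + H) := by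
  rw [T_inc E Y r q X H hE hX]
  unfold WW Er
  rw [mul_sum, ← sum_add_distrib, sum_filter]
  apply sum_le_sum
  intro a ha
  rw [mem_Icc] at ha
  split_ifs with h
  · have h1 := (count_mult (Nat.lcm a q) X H (lcm_pos' a q ha.1 hq)).2
    have h2 : (((Ioc X (X + H)).filter (fun n => Nat.lcm a q ∣ n ∧ a * Y < n)).card : ℝ) ≤ (((Ioc X (X + H)).filter (fun n => Nat.lcm a q ∣ n)).card : ℝ) := by
      apply Nat.cast_le.2
      apply card_le_card
      intro n hn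
      rw [mem_filter] at hn ⊢
      exact ⟨hn.1, hn.2.1⟩
    calc E a * (((Ioc X (X + H)).filter (fun n => Nat.lcm a q ∣ n ∧ a * Y < n)).card : ℝ) ≤ E a * ((H : ℝ) / (Nat.lcm a q : ℕ) + 1) :=
          mul_le_mul_of_nonneg_left (h2.trans h1) (hE.nn a)
      _ = _ := by ring
  · have h2 : (Ioc X (X + H)).filter (fun n => Nat.lcm a q ∣ n ∧ a * Y < n) = ∅ := by
      rw [filter_eq_empty_iff]
      intro n hn h3
      rw [mem_Ioc] at hn
      omega
    rw [h2, card_empty]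
    simp

lemma T_lower (E : ℕ → ℝ) (Y r q X H : ℕ) (hE : Hyp E Y r) (hX : Y ^ r ≤ X) (hq : 1 ≤ q) (hY : 1 ≤ Y) (hH : 1 ≤ H) :
    H * WW E Y q (X + 1) - Er E Y (X + 1) ≤ TT r q (X + H) - TT r q X := by
  rw [T_inc E Y r q X H hE hX]
  unfold WW Er
  have hs : (Icc 1 (X + 1)).filter (fun a => a * Y < X + 1) = (Icc 1 (X + H)).filter (fun a => a * Y < X + 1) := by
    ext a
    rw [mem_filter, mem_filter, mem_Icc, mem_Icc]
    constructor
    · rintro ⟨⟨h1, h2⟩, h3⟩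
      exact ⟨⟨h1, by omega⟩, h3⟩
    · rintro ⟨⟨h1, h2⟩, h3⟩
      have : a ≤ a * Y := Nat.le_mul_of_pos_right a hY
      exact ⟨⟨h1, by omega⟩, h3⟩
  rw [hs, mul_sum, ← sum_sub_distrib, sum_filter]
  apply sum_le_sum
  intro a ha
  rw [mem_Icc] at ha
  split_ifs with h
  · have h1 := (count_mult (Nat.lcm a q) X H (lcm_pos' a q ha.1 hq)).1
    have h2 : (Ioc X (X + H)).filter (fun n => Nat.lcm a q ∣ n ∧ a * Y < n) = (Ioc X (X + H)).filter (fun n => Nat.lcm a q ∣ n) := by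
      apply filter_congr
      intro n hn
      rw [mem_Ioc] at hn
      constructor
      · exact fun h => h.1
      · exact fun h' => ⟨h', by omega⟩
    rw [h2]
    calc H * (E a / (Nat.lcm a q : ℕ)) - E a = E a * ((H : ℝ) / (Nat.lcm a q : ℕ) - 1) := by ring
      _ ≤ _ := mul_le_mul_of_nonneg_left h1 (hE.nn a)
  · exact mul_nonneg (hE.nn a) (Nat.cast_nonneg _)

lemma dk_mono (r a : ℕ) (ha : 1 ≤ a) : dk r a ≤ dk (r + 1) a := by
  rw [dk_succ]
  exact single_le_sum (f := fun d => dk r d) (fun _ _ => Nat.zero_le _) (Nat.mem_divisors_self a (by omega))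

lemma Er_le (E : ℕ → ℝ) (Y r n : ℕ) (hE : Hyp E Y (r + 1)) (hY : 1 ≤ Y) (hn : 1 ≤ n) :
    Er E Y n ≤ (r + 1) * ((n : ℝ) / Y * (1 + Real.log n) ^ r) := by
  have h1 : Er E Y n ≤ ∑ a ∈ Icc 1 (n / Y), ((r : ℝ) + 1) * (dk (r + 1) a : ℝ) := by
    unfold Er
    have hsub : (Icc 1 n).filter (fun a => a * Y < n) ⊆ Icc 1 (n / Y) := by
      intro a ha
      rw [mem_filter, mem_Icc] at ha
      rw [mem_Icc, Nat.le_div_iff_mul_le (by omega)]
      exact ⟨ha.1.1, ha.2.le⟩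
    refine (sum_le_sum_of_subset_of_nonneg hsub fun a _ _ => hE.nn a).trans (sum_le_sum fun a ha => ?_)
    rw [mem_Icc] at ha
    have h2 := hE.le a
    rw [Nat.add_sub_cancel] at h2
    push_cast at h2
    refine h2.trans (mul_le_mul_of_nonneg_left ?_ (by positivity))
    exact_mod_cast dk_mono r a ha.1
  refine h1.trans ?_
  rw [← mul_sum]
  apply mul_le_mul_of_nonneg_left _ (by positivity)
  have h3 := SD_le (r + 1) (n / Y) (by omega)
  unfold SD at h3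
  rw [Nat.add_sub_cancel] at h3
  refine h3.trans ?_
  have hY0 : (0 : ℝ) < Y := by exact_mod_cast hY
  apply mul_le_mul Nat.cast_div_le _ (by positivity) (by positivity)
  apply pow_le_pow_left₀ (by have := Real.log_natCast_nonneg (n / Y); linarith)
  have h4 : n / Y ≤ n := Nat.div_le_self _ _
  rcases Nat.eq_zero_or_pos (n / Y) with h5 | h5
  · rw [h5]
    have := Real.log_natCast_nonneg n
    simp
    linarith
  · have : Real.log ((n / Y : ℕ) : ℝ) ≤ Real.log n := Real.log_le_log (by exact_mod_cast h5) (by exact_mod_cast h4)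
    linarith

/-- the choice of the length -/
lemma choose_H (n : ℕ) (hn : 2 ≤ n) (η : ℝ) (hη0 : 0 ≤ η) (hη1 : η ≤ 1) : ∃ H : ℕ, 1 ≤ H ∧ 2 * H ≤ n ∧ (H : ℝ) ≤ (n : ℝ) ^ (1 - η) ∧
    (n : ℝ) ^ (1 - η) / 4 ≤ H := by
  obtain ⟨x, hx⟩ : ∃ x, x = (n : ℝ) ^ (1 - η) := ⟨_, rfl⟩
  have hn1 : (1 : ℝ) ≤ n := by
    have : (2 : ℝ) ≤ n := by exact_mod_cast hn
    linarith
  have hx1 : 1 ≤ x := by rw [hx]; exact Real.one_le_rpow hn1 (by linarith)
  have hxn : x ≤ n := by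
    rw [hx]
    calc (n : ℝ) ^ (1 - η) ≤ (n : ℝ) ^ (1 : ℝ) := Real.rpow_le_rpow_of_exponent_le hn1 (by linarith)
      _ = n := Real.rpow_one _
  rw [← hx]
  have f1 := Nat.floor_le (by positivity : 0 ≤ x / 2)
  have f2 := Nat.lt_floor_add_one (x / 2)
  rcases Nat.lt_or_ge ⌊x / 2⌋₊ 1 with h | h
  · refine ⟨1, le_rfl, by omega, by push_cast; exact hx1, ?_⟩
    have : ⌊x / 2⌋₊ = 0 := by omega
    rw [this] at f2
    push_cast at f2 ⊢
    linarith
  · refine ⟨⌊x / 2⌋₊, h, ?_, by linarith, ?_⟩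
    · have : (2 : ℝ) * (⌊x / 2⌋₊ : ℝ) ≤ n := by linarith
      exact_mod_cast this
    · have : (1 : ℝ) ≤ (⌊x / 2⌋₊ : ℝ) := by exact_mod_cast h
      linarith

set_option maxHeartbeats 800000 in
theorem WW_asym (r : ℕ) : ∃ R : ℕ → ℝ[X], (∀ g, (R g).natDegree ≤ r) ∧ ∀ k : ℕ, ∃ K d : ℝ, 0 ≤ K ∧ 0 < d ∧ ∀ (E : ℕ → ℝ) (Y q n : ℕ),
    Hyp E Y (r + 1) → 1 ≤ q → 1 ≤ Y → 2 * Y ^ (r + 1) ≤ n → n ≤ (Y + 1) ^ k →
    |WW E Y q n - (R q).eval (Real.log n)| ≤ (q : ℝ) ^ (2 * (r + 1)) * (K * (n : ℝ) ^ (-d)) := by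
  obtain ⟨δ, hδ, hδ2, R, hR, h⟩ := TT_diff r
  refine ⟨R, hR, fun k => ?_⟩
  obtain ⟨κ, hκ⟩ : ∃ κ : ℝ, κ = 1 / (k + 1) := ⟨_, rfl⟩
  have hκ0 : 0 < κ := by rw [hκ]; positivity
  obtain ⟨η, hη⟩ : ∃ η, η = min δ κ / 2 := ⟨_, rfl⟩
  have hη0 : 0 < η := by rw [hη]; have := lt_min hδ hκ0; positivity
  have hηδ : 2 * η ≤ δ := by rw [hη]; have := min_le_left δ κ; linarith
  have hηκ : 2 * η ≤ κ := by rw [hη]; have := min_le_right δ κ; linarith
  obtain ⟨K, hK, h1⟩ := h (η / 2) (by positivity) (by linarith)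
  obtain ⟨c, hc, h2⟩ := poly_bd ((1 + X : ℝ[X]) ^ r) (η / 2) (by positivity)
  refine ⟨6 * K + 8 * (r + 1) * c, η / 2, by positivity, by positivity, fun E Y q n hE hq hY hn1 hn2 => ?_⟩
  have hYr : 1 ≤ Y ^ (r + 1) := Nat.one_le_pow _ _ hY
  have hn2' : 2 ≤ n := by omega
  obtain ⟨H, hH1, hH2, hH3, hH4⟩ := choose_H n hn2' η hη0.le (by linarith)
  have hn0 : (0 : ℝ) < n := by exact_mod_cast (by omega : 0 < n)
  have hn1' : (1 : ℝ) ≤ n := by exact_mod_cast (by omega : 1 ≤ n)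
  have hH0 : (0 : ℝ) < H := by exact_mod_cast hH1
  have hq1 : (1 : ℝ) ≤ q := by exact_mod_cast hq
  obtain ⟨Q, hQ⟩ : ∃ Q : ℝ, Q = (q : ℝ) ^ (2 * (r + 1)) := ⟨_, rfl⟩
  have hQ1 : 1 ≤ Q := by rw [hQ]; exact one_le_pow₀ hq1
  -- the two differences
  have u1 := h1 q hq (n - 1) H n hH1 (by omega) (by omega) (by omega)
  have u2 := h1 q hq (n - H) H n hH1 (by omega) (by omega) (by omega)
  have v1 := T_lower E Y (r + 1) q (n - 1) H hE (by omega) hq hY hH1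
  have v2 := T_upper E Y (r + 1) q (n - H) H hE (by omega) hq
  rw [show n - 1 + 1 = n by omega] at v1
  rw [show n - H + H = n by omega] at v2 u2
  rw [← hQ] at u1 u2 ⊢
  -- the error for X
  have herr : ∀ X : ℕ, n ≤ 2 * X → X ≤ n → (X : ℝ) ^ (1 - δ) + (H : ℝ) ^ 2 / X * (X : ℝ) ^ (η / 2) ≤ 6 * (H * (n : ℝ) ^ (-(η / 2))) := by
    intro X hX1 hX2
    have hX0 : (0 : ℝ) < X := by exact_mod_cast (by omega : 0 < X)
    have hXn : (X : ℝ) ≤ n := by exact_mod_cast hX2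
    have hXn2 : (n : ℝ) ≤ 2 * X := by exact_mod_cast hX1
    have a1 : (X : ℝ) ^ (1 - δ) ≤ 4 * (H * (n : ℝ) ^ (-(η / 2))) := by
      calc (X : ℝ) ^ (1 - δ) ≤ (n : ℝ) ^ (1 - δ) := Real.rpow_le_rpow hX0.le hXn (by linarith)
        _ ≤ (n : ℝ) ^ ((1 - η) + -(η / 2)) := Real.rpow_le_rpow_of_exponent_le hn1' (by linarith)
        _ = (n : ℝ) ^ (1 - η) * (n : ℝ) ^ (-(η / 2)) := Real.rpow_add hn0 _ _
        _ ≤ (4 * H) * (n : ℝ) ^ (-(η / 2)) := mul_le_mul_of_nonneg_right (by linarith) (by positivity)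
        _ = _ := by ring
    have a2 : (H : ℝ) ^ 2 / X * (X : ℝ) ^ (η / 2) ≤ 2 * (H * (n : ℝ) ^ (-(η / 2))) := by
      have b1 : (H : ℝ) / X * (X : ℝ) ^ (η / 2) ≤ 2 * (n : ℝ) ^ (-(η / 2)) := by
        calc (H : ℝ) / X * (X : ℝ) ^ (η / 2) ≤ ((n : ℝ) ^ (1 - η) / (n / 2)) * (n : ℝ) ^ (η / 2) := by
              apply mul_le_mul _ (Real.rpow_le_rpow hX0.le hXn (by positivity)) (by positivity) (by positivity)
              apply div_le_div₀ (by positivity) hH3 (by positivity) (by linarith)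
          _ = 2 * ((n : ℝ) ^ (1 - η) * (n : ℝ) ^ (-1 : ℝ) * (n : ℝ) ^ (η / 2)) := by
              rw [Real.rpow_neg_one]; field_simp
          _ = 2 * (n : ℝ) ^ (-(η / 2)) := by
              rw [← Real.rpow_add hn0, ← Real.rpow_add hn0]
              congr 2
              ring
      calc (H : ℝ) ^ 2 / X * (X : ℝ) ^ (η / 2) = H * ((H : ℝ) / X * (X : ℝ) ^ (η / 2)) := by ring
        _ ≤ H * (2 * (n : ℝ) ^ (-(η / 2))) := mul_le_mul_of_nonneg_left b1 hH0.le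
        _ = _ := by ring
    linarith
  have hEr : Er E Y n ≤ 8 * (r + 1) * c * (H * (n : ℝ) ^ (-(η / 2))) := by
    refine (Er_le E Y r n hE hY (by omega)).trans ?_
    have b1 : (1 + Real.log n) ^ r ≤ c * (n : ℝ) ^ (η / 2) := by
      have := h2 n hn1'
      rw [eval_pow, eval_add, eval_one, eval_X] at this
      exact (le_abs_self _).trans this
    have hY0 : (0 : ℝ) < Y := by exact_mod_cast hY
    have hY1 : (1 : ℝ) ≤ Y := by exact_mod_cast hY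
    have b2 : (n : ℝ) ^ κ ≤ 2 * Y := by
      have b3 : (n : ℝ) ≤ ((Y : ℝ) + 1) ^ (k + 1) := by
        have b7 : n ≤ (Y + 1) ^ (k + 1) := hn2.trans (Nat.pow_le_pow_right (by omega) (by omega))
        exact_mod_cast b7
      calc (n : ℝ) ^ κ ≤ (((Y : ℝ) + 1) ^ (k + 1)) ^ κ := Real.rpow_le_rpow hn0.le b3 hκ0.le
        _ = (Y : ℝ) + 1 := by
            rw [← Real.rpow_natCast, ← Real.rpow_mul (by positivity), hκ]
            have : ((k + 1 : ℕ) : ℝ) * (1 / ((k : ℝ) + 1)) = 1 := by push_cast; field_simp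
            rw [this, Real.rpow_one]
        _ ≤ 2 * Y := by linarith
    have b4 : (n : ℝ) / Y ≤ 2 * (n : ℝ) ^ (1 - κ) := by
      rw [div_le_iff₀ hY0, Real.rpow_sub hn0, Real.rpow_one]
      have : 0 < (n : ℝ) ^ κ := Real.rpow_pos_of_pos hn0 _
      rw [show 2 * ((n : ℝ) / (n : ℝ) ^ κ) * Y = (n : ℝ) * ((2 * Y) / (n : ℝ) ^ κ) by ring]
      have b5 : 1 ≤ (2 * (Y : ℝ)) / (n : ℝ) ^ κ := by rw [le_div_iff₀ this]; linarith
      nlinarith
    have b6 : (n : ℝ) / Y * (1 + Real.log n) ^ r ≤ 8 * c * (H * (n : ℝ) ^ (-(η / 2))) := by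
      calc (n : ℝ) / Y * (1 + Real.log n) ^ r ≤ (2 * (n : ℝ) ^ (1 - κ)) * (c * (n : ℝ) ^ (η / 2)) := by
            apply mul_le_mul b4 b1 _ (by positivity)
            apply pow_nonneg
            have := Real.log_nonneg hn1'
            linarith
        _ = 2 * c * ((n : ℝ) ^ (1 - κ) * (n : ℝ) ^ (η / 2)) := by ring
        _ = 2 * c * (n : ℝ) ^ (1 - κ + η / 2) := by rw [Real.rpow_add hn0]
        _ ≤ 2 * c * (n : ℝ) ^ ((1 - η) + -(η / 2)) := by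
            apply mul_le_mul_of_nonneg_left _ (by positivity)
            exact Real.rpow_le_rpow_of_exponent_le hn1' (by linarith)
        _ = 2 * c * ((n : ℝ) ^ (1 - η) * (n : ℝ) ^ (-(η / 2))) := by rw [Real.rpow_add hn0]
        _ ≤ 2 * c * ((4 * H) * (n : ℝ) ^ (-(η / 2))) := by
            apply mul_le_mul_of_nonneg_left _ (by positivity)
            exact mul_le_mul_of_nonneg_right (by linarith) (by positivity)
        _ = _ := by ring
    calc ((r : ℝ) + 1) * ((n : ℝ) / Y * (1 + Real.log n) ^ r) ≤ (r + 1) * (8 * c * (H * (n : ℝ) ^ (-(η / 2)))) :=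
          mul_le_mul_of_nonneg_left b6 (by positivity)
      _ = _ := by ring
  have e1 := herr (n - 1) (by omega) (by omega)
  have e2 := herr (n - H) (by omega) (by omega)
  obtain ⟨t, ht⟩ : ∃ t, t = (n : ℝ) ^ (-(η / 2)) := ⟨_, rfl⟩
  rw [← ht] at e1 e2 hEr ⊢
  have ht0 : 0 < t := by rw [ht]; positivity
  obtain ⟨S1, hS1⟩ : ∃ S1, S1 = ((n - 1 : ℕ) : ℝ) ^ (1 - δ) + (H : ℝ) ^ 2 / ((n - 1 : ℕ) : ℝ) * ((n - 1 : ℕ) : ℝ) ^ (η / 2) := ⟨_, rfl⟩
  obtain ⟨S2, hS2⟩ : ∃ S2, S2 = ((n - H : ℕ) : ℝ) ^ (1 - δ) + (H : ℝ) ^ 2 / ((n - H : ℕ) : ℝ) * ((n - H : ℕ) : ℝ) ^ (η / 2) := ⟨_, rfl⟩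
  rw [← hS1] at e1 u1
  rw [← hS2] at e2 u2
  have w1 : Q * (K * S1) ≤ Q * (K * (6 * (H * t))) := mul_le_mul_of_nonneg_left (mul_le_mul_of_nonneg_left e1 hK) (by linarith)
  have w2 : Q * (K * S2) ≤ Q * (K * (6 * (H * t))) := mul_le_mul_of_nonneg_left (mul_le_mul_of_nonneg_left e2 hK) (by linarith)
  have w3 : 8 * ((r : ℝ) + 1) * c * (H * t) ≤ Q * (8 * (r + 1) * c * (H * t)) := le_mul_of_one_le_left (by positivity) hQ1
  obtain ⟨p, hp⟩ : ∃ p, p = (R q).eval (Real.log n) := ⟨_, rfl⟩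
  rw [← hp] at u1 u2 ⊢
  rw [abs_le] at u1 u2
  obtain ⟨x, hx⟩ : ∃ x, x = WW E Y q n := ⟨_, rfl⟩
  rw [← hx] at v1 v2 ⊢
  have key : (H : ℝ) * |x - p| ≤ H * (Q * ((6 * K + 8 * (r + 1) * c) * t)) := by
    rw [← abs_of_pos hH0, ← abs_mul, abs_of_pos hH0, abs_le]
    have e3 : (H : ℝ) * (Q * ((6 * K + 8 * (r + 1) * c) * t)) = Q * (K * (6 * (H * t))) + Q * (8 * (r + 1) * c * (H * t)) := by ring
    rw [e3]
    constructor <;> nlinarith [u1.1, u1.2, u2.1, u2.2]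
  exact le_of_mul_le_mul_left key hH0

end Pool.Agent.TH935.LP
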