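import Pool.Agent.TH935.LP.W6
import Pool.Agent.TH212.PS.P1

set_option autoImplicit false

/-! The smooth weights are polynomials in `log n`, up to a power saving: the individual weights. -/

namespace Pool.Agent.TH935.LP
open Finset Polynomial
open Pool.Agent.TH935.LD (dk)

/-- the individual weights -/
noncomputable def wt (E : ℕ → ℝ) (Y q n : ℕ) : ℝ := ∑ a ∈ (Icc 1 n).filter (fun a => q ∣ a ∧ a * Y < n), E a / a

lemma totient_gcd (a q : ℕ) (hq : 1 ≤ q) : ∑ e ∈ q.divisors, (if e ∣ a then (Nat.totient e : ℝ) else 0) = (Nat.gcd a q : ℝ) := by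
  rw [← sum_filter]
  have h1 : q.divisors.filter (fun e => e ∣ a) = (Nat.gcd a q).divisors := by
    ext e
    rw [mem_filter, Nat.mem_divisors, Nat.mem_divisors, Nat.dvd_gcd_iff]
    have : Nat.gcd a q ≠ 0 := Nat.gcd_ne_zero_right (by omega)
    constructor
    · rintro ⟨⟨h1, h2⟩, h3⟩
      exact ⟨⟨h3, h1⟩, this⟩
    · rintro ⟨⟨h1, h2⟩, _⟩
      exact ⟨⟨h2, by omega⟩, h1⟩
  rw [h1, ← Nat.cast_sum, Nat.sum_totient]

lemma wt_sum (E : ℕ → ℝ) (Y q n : ℕ) (hq : 1 ≤ q) : ∑ e ∈ q.divisors, (Nat.totient e : ℝ) * wt E Y e n = q * WW E Y q n := by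
  have hq0 : (0 : ℝ) < q := by exact_mod_cast hq
  have h1 : ∀ e ∈ q.divisors, (Nat.totient e : ℝ) * wt E Y e n =
      ∑ a ∈ (Icc 1 n).filter (fun a => a * Y < n), (E a / a) * (if e ∣ a then (Nat.totient e : ℝ) else 0) := by
    intro e _
    unfold wt
    rw [mul_sum, sum_filter, sum_filter]
    apply sum_congr rfl
    intro a _
    by_cases h1 : e ∣ a
    · by_cases h2 : a * Y < n
      · rw [if_pos ⟨h1, h2⟩, if_pos h2, if_pos h1]; ring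
      · rw [if_neg (fun h => h2 h.2), if_neg h2]
    · rw [if_neg (fun h => h1 h.1), if_neg h1, mul_zero, ite_self]
  rw [sum_congr rfl h1, sum_comm]
  unfold WW
  rw [mul_sum]
  apply sum_congr rfl
  intro a ha
  rw [mem_filter, mem_Icc] at ha
  have ha0 : (0 : ℝ) < a := by exact_mod_cast ha.1.1
  rw [← mul_sum, totient_gcd a q hq]
  have h2 : (Nat.gcd a q : ℝ) * (Nat.lcm a q : ℝ) = a * q := by exact_mod_cast Nat.gcd_mul_lcm a q
  have h3 : (0 : ℝ) < (Nat.lcm a q : ℝ) := by exact_mod_cast Nat.lcm_pos ha.1.1 hq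
  rw [div_mul_eq_mul_div, ← mul_div_assoc, div_eq_div_iff ha0.ne' h3.ne']
  calc E a * (Nat.gcd a q : ℝ) * (Nat.lcm a q : ℝ) = E a * ((Nat.gcd a q : ℝ) * (Nat.lcm a q : ℝ)) := by ring
    _ = _ := by rw [h2]; ring

lemma wt_moebius (E : ℕ → ℝ) (Y q n : ℕ) (hq : 1 ≤ q) :
    ∑ x ∈ q.divisorsAntidiagonal, ((ArithmeticFunction.moebius x.1 : ℤ) : ℝ) * (x.2 * WW E Y x.2 n) = (Nat.totient q : ℝ) * wt E Y q n :=
  (ArithmeticFunction.sum_eq_iff_sum_mul_moebius_eq (R := ℝ) (f := fun e => (Nat.totient e : ℝ) * wt E Y e n)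
    (g := fun e => (e : ℝ) * WW E Y e n)).1 (fun m hm => wt_sum E Y m n hm) q hq

/-- the polynomials -/
noncomputable def PQ (R : ℕ → ℝ[X]) (q : ℕ) : ℝ[X] :=
  Polynomial.C (1 / (Nat.totient q : ℝ)) * ∑ x ∈ q.divisorsAntidiagonal, Polynomial.C (((ArithmeticFunction.moebius x.1 : ℤ) : ℝ) * x.2) * R x.2

lemma PQ_deg (R : ℕ → ℝ[X]) (r : ℕ) (h : ∀ g, (R g).natDegree ≤ r) (q : ℕ) : (PQ R q).natDegree ≤ r := by
  unfold PQ
  refine (natDegree_C_mul_le _ _).trans ?_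
  apply natDegree_sum_le_of_forall_le
  intro x _
  exact (natDegree_C_mul_le _ _).trans (h _)

theorem wt_asym (r : ℕ) : ∃ P : ℕ → ℝ[X], (∀ q, (P q).natDegree ≤ r) ∧ ∀ k : ℕ, ∃ K d : ℝ, 0 ≤ K ∧ 0 < d ∧ ∀ (E : ℕ → ℝ) (Y q n : ℕ),
    Hyp E Y (r + 1) → 1 ≤ q → 1 ≤ Y → 2 * Y ^ (r + 1) ≤ n → n ≤ (Y + 1) ^ k →
    |wt E Y q n - (P q).eval (Real.log n)| ≤ K * (q : ℝ) ^ (2 * r + 4) * (n : ℝ) ^ (-d) := by
  obtain ⟨R, hR, hk⟩ := WW_asym r
  refine ⟨PQ R, PQ_deg R r hR, fun k => ?_⟩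
  obtain ⟨K, d, hK, hd, h⟩ := hk k
  refine ⟨K, d, hK, hd, fun E Y q n hE hq hY hn1 hn2 => ?_⟩
  have hq0 : (0 : ℝ) < q := by exact_mod_cast hq
  have hq1 : (1 : ℝ) ≤ q := by exact_mod_cast hq
  have hφ : 1 ≤ Nat.totient q := Nat.totient_pos.2 hq
  have hφ' : (1 : ℝ) ≤ Nat.totient q := by exact_mod_cast hφ
  have e1 : wt E Y q n - (PQ R q).eval (Real.log n) = (1 / (Nat.totient q : ℝ)) *
      ∑ x ∈ q.divisorsAntidiagonal, ((ArithmeticFunction.moebius x.1 : ℤ) : ℝ) * x.2 * (WW E Y x.2 n - (R x.2).eval (Real.log n)) := by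
    have e2 : wt E Y q n = (1 / (Nat.totient q : ℝ)) * ∑ x ∈ q.divisorsAntidiagonal, ((ArithmeticFunction.moebius x.1 : ℤ) : ℝ) * (x.2 * WW E Y x.2 n) := by
      rw [wt_moebius E Y q n hq]
      field_simp
    rw [e2]
    unfold PQ
    rw [eval_mul, eval_C, eval_finset_sum, ← mul_sub, ← sum_sub_distrib]
    congr 1
    apply sum_congr rfl
    intro x _
    rw [eval_mul, eval_C]
    ring
  rw [e1, abs_mul, abs_of_pos (by positivity)]
  have h2 : ∀ x ∈ q.divisorsAntidiagonal, |((ArithmeticFunction.moebius x.1 : ℤ) : ℝ) * x.2 * (WW E Y x.2 n - (R x.2).eval (Real.log n))| ≤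
      q * ((q : ℝ) ^ (2 * (r + 1)) * (K * (n : ℝ) ^ (-d))) := by
    intro x hx
    rw [Nat.mem_divisorsAntidiagonal] at hx
    have hx2 : 1 ≤ x.2 := Nat.pos_of_ne_zero (by intro h0; rw [h0, mul_zero] at hx; omega)
    have hx3 : x.2 ≤ q := Nat.le_of_dvd hq ⟨x.1, by rw [mul_comm]; exact hx.1.symm⟩
    have hx3' : (x.2 : ℝ) ≤ q := by exact_mod_cast hx3
    have h3 := h E Y x.2 n hE hx2 hY hn1 hn2
    rw [abs_mul, abs_mul]
    have h5 : |((ArithmeticFunction.moebius x.1 : ℤ) : ℝ)| ≤ 1 := by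
      have := ArithmeticFunction.abs_moebius_le_one (n := x.1)
      exact_mod_cast this
    have h6 : |((ArithmeticFunction.moebius x.1 : ℤ) : ℝ)| * |(x.2 : ℝ)| ≤ q := by
      rw [abs_of_nonneg (Nat.cast_nonneg x.2 : (0 : ℝ) ≤ (x.2 : ℝ))]
      calc |((ArithmeticFunction.moebius x.1 : ℤ) : ℝ)| * (x.2 : ℝ) ≤ 1 * q := mul_le_mul h5 hx3' (Nat.cast_nonneg _) zero_le_one
        _ = q := one_mul _
    apply mul_le_mul h6 _ (abs_nonneg _) hq0.le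
    refine h3.trans (mul_le_mul_of_nonneg_right ?_ (by positivity))
    exact pow_le_pow_left₀ (Nat.cast_nonneg _) hx3' _
  have h7 : |∑ x ∈ q.divisorsAntidiagonal, ((ArithmeticFunction.moebius x.1 : ℤ) : ℝ) * x.2 * (WW E Y x.2 n - (R x.2).eval (Real.log n))| ≤
      q * (q * ((q : ℝ) ^ (2 * (r + 1)) * (K * (n : ℝ) ^ (-d)))) := by
    refine (abs_sum_le_sum_abs _ _).trans ((sum_le_card_nsmul _ _ _ h2).trans ?_)
    rw [nsmul_eq_mul]
    apply mul_le_mul_of_nonneg_right _ (by positivity)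
    have : q.divisorsAntidiagonal.card = q.divisors.card := by
      rw [← Nat.map_div_right_divisors, card_map]
    rw [this]
    exact card_div_le q
  calc 1 / (Nat.totient q : ℝ) * |∑ x ∈ q.divisorsAntidiagonal, ((ArithmeticFunction.moebius x.1 : ℤ) : ℝ) * x.2 * (WW E Y x.2 n - (R x.2).eval (Real.log n))| ≤
      1 * (q * (q * ((q : ℝ) ^ (2 * (r + 1)) * (K * (n : ℝ) ^ (-d))))) := by
        apply mul_le_mul _ h7 (abs_nonneg _) zero_le_one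
        rw [div_le_one (by positivity)]
        exact hφ'
    _ = K * (q : ℝ) ^ (2 * r + 4) * (n : ℝ) ^ (-d) := by ring

/-- the coefficients of `Pool.Agent.TH212.PS` -/
lemma hyp_EE (Y r : ℕ) : Hyp (fun a => (Pool.Agent.TH212.PS.EE Y (r + 1) a : ℝ)) Y (r + 1) where
  nn := fun a => Nat.cast_nonneg _
  id := by
    intro n hn
    have h := Pool.Agent.TH212.PS.exact_id Y (r + 1) n hn
    have h2 : dk (r + 1) n = Pool.Agent.TH212.DV.dk (r + 1) n := rfl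
    rw [h2, h]
    push_cast
    rfl
  le := by
    intro a
    have h := Pool.Agent.TH212.PS.EE_le Y r a
    have h2 : dk r a = Pool.Agent.TH212.DV.dk r a := rfl
    rw [Nat.add_sub_cancel, h2]
    exact_mod_cast h

/-- **the smooth weights are polynomials in `log n`, up to a power saving**, the same polynomials for all ranges -/
theorem W_all (r : ℕ) (hr : 1 ≤ r) : ∃ P : ℕ → ℝ[X], (∀ q, (P q).natDegree ≤ r - 1) ∧ ∀ k : ℕ, ∃ C A d : ℝ, 0 < d ∧ ∀ q Y n : ℕ,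
    1 ≤ q → 2 ≤ Y → 2 * Y ^ r ≤ n → n ≤ (Y + 1) ^ k →
    |(∑ a ∈ (Icc 1 n).filter (fun a => q ∣ a ∧ a * Y < n), (Pool.Agent.TH212.PS.EE Y r a : ℝ) / a) - (P q).eval (Real.log n)| ≤
      C * (q : ℝ) ^ A * (n : ℝ) ^ (-d) := by
  obtain ⟨s, rfl⟩ : ∃ s, r = s + 1 := ⟨r - 1, by omega⟩
  obtain ⟨P, hP, h0⟩ := wt_asym s
  refine ⟨P, hP, fun k => ?_⟩
  obtain ⟨K, d, hK, hd, h⟩ := h0 k
  refine ⟨K, ((2 * s + 4 : ℕ) : ℝ), d, hd, fun q Y n hq hY hn1 hn2 => ?_⟩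
  rw [Real.rpow_natCast]
  exact h (fun a => (Pool.Agent.TH212.PS.EE Y (s + 1) a : ℝ)) Y q n (hyp_EE Y s) hq (by omega) hn1 hn2

/-- **the smooth weights are polynomials in `log n`, up to a power saving** -/
theorem W_main (r : ℕ) (hr : 1 ≤ r) : ∃ P : ℕ → ℝ[X], (∀ q, (P q).natDegree ≤ r - 1) ∧ ∃ C A d : ℝ, 0 < d ∧ ∀ q Y n : ℕ,
    1 ≤ q → 2 ≤ Y → 2 * Y ^ r ≤ n → n ≤ (Y + 1) ^ (4 * r) →
    |(∑ a ∈ (Icc 1 n).filter (fun a => q ∣ a ∧ a * Y < n), (Pool.Agent.TH212.PS.EE Y r a : ℝ) / a) - (P q).eval (Real.log n)| ≤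
      C * (q : ℝ) ^ A * (n : ℝ) ^ (-d) := by
  obtain ⟨P, hP, h⟩ := W_all r hr
  exact ⟨P, hP, h (4 * r)⟩

end Pool.Agent.TH935.LP
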