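import Pool.Agent.TH935.LP.W7
import Pool.Agent.TH935.LP.L14
import Pool.Agent.TH212.DV.C11

set_option autoImplicit false

/-! The leading coefficients of the polynomials. -/

namespace Pool.Agent.TH935.LP
open Finset Polynomial
open Pool.Agent.TH935.LD (dk gam ww Par sI w_asym)
open Pool.Agent.TH212.DV (kap kap_succ lo lo_apply)

lemma EE_eq (Y : ℕ) (r : ℕ) : Pool.Agent.TH935.LD.EE r Y = Pool.Agent.TH212.PS.EE Y r := by
  induction r with
  | zero => rfl
  | succ r ih =>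
    have h1 : sI Y = lo (Y + 1) := by
      ext n
      rw [Pool.Agent.TH935.LD.sI_apply, lo_apply]
      split_ifs <;> omega
    rw [Pool.Agent.TH212.PS.EE_succ, ← ih, ← h1]
    unfold Pool.Agent.TH935.LD.EE
    rw [sum_range_succ, Nat.add_sub_cancel, Nat.sub_self, pow_zero, mul_one, add_comm, mul_sum]
    congr 1
    apply sum_congr rfl
    intro i hi
    rw [mem_range] at hi
    have : r - i = (r - 1 - i) + 1 := by omega
    rw [this, pow_succ]
    ring

lemma gam_eq_kap (s : ℕ) : ∀ q : ℕ, 1 ≤ q → gam s q = kap s q := by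
  induction s with
  | zero => intro q _; rfl
  | succ s ih =>
    intro q hq
    rw [kap_succ]
    unfold gam
    have h1 : ∑ b ∈ range q, kap s (q / Nat.gcd b q) = ∑ d ∈ q.divisors, (Nat.totient (q / d) : ℝ) * kap s (q / d) := by
      have hmaps : ∀ b ∈ range q, Nat.gcd q b ∈ q.divisors := by
        intro b _
        rw [Nat.mem_divisors]
        exact ⟨Nat.gcd_dvd_left q b, by omega⟩
      rw [← sum_fiberwise_of_maps_to hmaps]
      apply sum_congr rfl
      intro d hd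
      rw [Nat.totient_div_of_dvd (Nat.dvd_of_mem_divisors hd), ← nsmul_eq_mul]
      rw [← sum_const]
      apply sum_congr rfl
      intro b hb
      rw [mem_filter] at hb
      rw [Nat.gcd_comm b q, hb.2]
    rw [h1, Nat.sum_div_divisors q (fun e => (Nat.totient e : ℝ) * kap s e), one_div, inv_mul_eq_div]
    congr 1
    apply sum_congr rfl
    intro e he
    rw [ih e (Nat.pos_of_mem_divisors he)]

lemma lead_eq (P : ℝ[X]) (j : ℕ) (hj : P.natDegree ≤ j) (c : ℝ) (h : ∀ δ : ℝ, 0 < δ → ∀ u0 : ℝ, ∃ u : ℝ, u0 ≤ u ∧ |P.eval u - c * u ^ j| ≤ δ * u ^ j) :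
    P.coeff j = c := by
  obtain ⟨S, hS⟩ : ∃ S, S = ∑ i ∈ range j, |P.coeff i| := ⟨_, rfl⟩
  have hS0 : 0 ≤ S := by rw [hS]; exact sum_nonneg fun _ _ => abs_nonneg _
  have key : ∀ δ : ℝ, 0 < δ → |P.coeff j - c| ≤ 2 * δ := by
    intro δ hδ
    obtain ⟨u, hu, h1⟩ := h δ hδ (1 + S / δ)
    have hSδ : 0 ≤ S / δ := by positivity
    have hu1 : 1 ≤ u := by linarith
    have hu0 : 0 < u := by linarith
    have hSu : S ≤ δ * u := by
      have : S / δ ≤ u := by linarith
      rw [div_le_iff₀ hδ] at this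
      linarith
    have hup : 0 < u ^ j := pow_pos hu0 j
    have e1 : P.eval u = ∑ i ∈ range j, P.coeff i * u ^ i + P.coeff j * u ^ j := by
      rw [eval_eq_sum_range' (n := j + 1) (by omega), sum_range_succ]
    have e2 : |∑ i ∈ range j, P.coeff i * u ^ i| ≤ δ * u ^ j := by
      have e3 : ∀ i ∈ range j, |P.coeff i * u ^ i| * u ≤ |P.coeff i| * u ^ j := by
        intro i hi
        rw [mem_range] at hi
        rw [abs_mul, abs_of_pos (pow_pos hu0 i), mul_assoc, ← pow_succ]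
        exact mul_le_mul_of_nonneg_left (pow_le_pow_right₀ hu1 (by omega)) (abs_nonneg _)
      have e4 : |∑ i ∈ range j, P.coeff i * u ^ i| * u ≤ S * u ^ j := by
        calc |∑ i ∈ range j, P.coeff i * u ^ i| * u ≤ (∑ i ∈ range j, |P.coeff i * u ^ i|) * u :=
              mul_le_mul_of_nonneg_right (abs_sum_le_sum_abs _ _) hu0.le
          _ = ∑ i ∈ range j, |P.coeff i * u ^ i| * u := by rw [sum_mul]
          _ ≤ ∑ i ∈ range j, |P.coeff i| * u ^ j := sum_le_sum e3
          _ = S * u ^ j := by rw [hS, sum_mul]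
      have e5 : |∑ i ∈ range j, P.coeff i * u ^ i| * u ≤ (δ * u ^ j) * u := by
        calc |∑ i ∈ range j, P.coeff i * u ^ i| * u ≤ S * u ^ j := e4
          _ ≤ (δ * u) * u ^ j := mul_le_mul_of_nonneg_right hSu hup.le
          _ = _ := by ring
      exact le_of_mul_le_mul_right e5 hu0
    have e6 : |P.coeff j - c| * u ^ j ≤ (2 * δ) * u ^ j := by
      rw [← abs_of_pos hup, ← abs_mul, abs_of_pos hup]
      have e7 : (P.coeff j - c) * u ^ j = (P.eval u - c * u ^ j) - ∑ i ∈ range j, P.coeff i * u ^ i := by rw [e1]; ring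
      rw [e7]
      refine (abs_sub _ _).trans ?_
      linarith
    exact le_of_mul_le_mul_right e6 hup
  by_contra hne
  have h1 : 0 < |P.coeff j - c| := abs_pos.2 (sub_ne_zero.2 hne)
  have h2 := key (|P.coeff j - c| / 4) (by positivity)
  linarith

lemma ww_eq_wt (r Y q n : ℕ) : ww r Y q n = wt (fun a => (Pool.Agent.TH212.PS.EE Y r a : ℝ)) Y q n := by
  unfold ww wt
  rw [EE_eq]
  apply sum_congr _ (fun _ _ => rfl)
  apply filter_congr
  intro a _
  tauto

lemma wt_zero (Y q n : ℕ) (h : Y < n) (hq : 1 ≤ q) : wt (fun a => (Pool.Agent.TH212.PS.EE Y 1 a : ℝ)) Y q n = if q = 1 then 1 else 0 := by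
  have hE : ∀ a : ℕ, Pool.Agent.TH212.PS.EE Y 1 a = if a = 1 then 1 else 0 := by
    intro a
    have h0 : Pool.Agent.TH212.PS.EE Y 1 = 1 := by
      have := Pool.Agent.TH212.PS.EE_succ Y 0
      rw [pow_zero] at this
      have h2 : Pool.Agent.TH212.PS.EE Y 0 = 0 := rfl
      rw [h2, mul_zero, add_zero] at this
      exact this
    rw [h0, ArithmeticFunction.one_apply]
  unfold wt
  simp only [hE]
  rw [sum_filter]
  rw [sum_eq_single 1]
  · by_cases h1 : q = 1
    · subst h1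
      simp [h]
    · rw [if_neg h1, if_neg]
      rintro ⟨h2, _⟩
      exact h1 (Nat.dvd_one.1 h2)
  · intro a _ ha
    rw [if_neg ha]
    simp
  · intro h1
    exact absurd (mem_Icc.2 ⟨le_rfl, by omega⟩) h1

/-- the leading coefficients -/
lemma lead (s : ℕ) (P : ℕ → ℝ[X]) (hP : ∀ q, (P q).natDegree ≤ s) (h : ∃ K d : ℝ, 0 ≤ K ∧ 0 < d ∧ ∀ (E : ℕ → ℝ) (Y q n : ℕ),
    Hyp E Y (s + 1) → 1 ≤ q → 1 ≤ Y → 2 * Y ^ (s + 1) ≤ n → n ≤ (Y + 1) ^ (2 * (s + 1)) →
    |wt E Y q n - (P q).eval (Real.log n)| ≤ K * (q : ℝ) ^ (2 * s + 4) * (n : ℝ) ^ (-d)) (q : ℕ) (hq : 1 ≤ q) :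
    (P q).coeff s = kap s q / (s.factorial : ℝ) := by
  obtain ⟨K, d, hK, hd, h⟩ := h
  rw [← gam_eq_kap s q hq]
  apply lead_eq (P q) s (hP q)
  intro δ hδ u0
  -- the limit of the error term
  have hlim : Filter.Tendsto (fun n : ℕ => K * (q : ℝ) ^ (2 * s + 4) * (n : ℝ) ^ (-d)) Filter.atTop (nhds 0) := by
    have h1 := (tendsto_rpow_neg_atTop hd).comp tendsto_natCast_atTop_atTop
    have h2 := h1.const_mul (K * (q : ℝ) ^ (2 * s + 4))
    rw [mul_zero] at h2
    exact h2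
  obtain ⟨N1, hN1⟩ := Filter.eventually_atTop.1 (hlim.eventually (ge_mem_nhds (show (0 : ℝ) < δ / 2 by positivity)))
  obtain ⟨N2, hN2⟩ : ∃ N2 : ℕ, max u0 3 ≤ Real.log N2 := by
    refine ⟨⌈Real.exp (max u0 3)⌉₊, ?_⟩
    rw [Real.le_log_iff_exp_le]
    · exact Nat.le_ceil _
    · exact lt_of_lt_of_le (Real.exp_pos _) (Nat.le_ceil _)
  have hpowY : ∀ Y : ℕ, 2 ≤ Y → 2 * Y ^ (s + 1) ≤ Y ^ (2 * (s + 1)) := by
    intro Y hY
    calc 2 * Y ^ (s + 1) ≤ Y ^ (s + 1) * Y ^ (s + 1) := Nat.mul_le_mul_right _ (hY.trans (Nat.le_self_pow (by omega) Y))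
      _ = Y ^ (2 * (s + 1)) := by rw [← pow_add]; congr 1; ring
  rcases Nat.eq_zero_or_pos s with hs | hs
  · subst hs
    obtain ⟨Y, hYd⟩ : ∃ Y, Y = N1 + N2 + 2 := ⟨_, rfl⟩
    obtain ⟨n, hn⟩ : ∃ n, n = Y ^ (2 * (0 + 1)) := ⟨_, rfl⟩
    have hYn : Y ≤ n := by rw [hn]; exact Nat.le_self_pow (by omega) Y
    have hYn' : Y < n := by
      have := hpowY Y (by omega)
      rw [← hn, zero_add, pow_one] at this
      omega
    have h1 := h (fun a => (Pool.Agent.TH212.PS.EE Y (0 + 1) a : ℝ)) Y q n (hyp_EE Y 0) hq (by omega)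
      (by rw [hn]; exact hpowY Y (by omega)) (by rw [hn]; exact Nat.pow_le_pow_left (by omega) _)
    rw [wt_zero Y q n hYn' hq] at h1
    refine ⟨Real.log n, ?_, ?_⟩
    · have : Real.log N2 ≤ Real.log n := by
        apply Real.log_le_log
        · by_contra hc
          push Not at hc
          have : Real.log N2 ≤ 0 := by
            have : (N2 : ℝ) = 0 := le_antisymm hc (Nat.cast_nonneg _)
            rw [this, Real.log_zero]
          have := le_max_right u0 3
          linarith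
        · exact_mod_cast (by omega : N2 ≤ n)
      exact (le_max_left _ _).trans (hN2.trans this)
    · have h2 := hN1 n (by omega)
      have h3 : gam 0 q = if q = 1 then 1 else 0 := rfl
      simp only [h3, pow_zero, mul_one, Nat.factorial_zero, Nat.cast_one, div_one]
      rw [abs_sub_comm]
      exact h1.trans (h2.trans (by linarith))
  · have hδ1 : 0 < min (δ / 2) 1 := lt_min (by positivity) one_pos
    obtain ⟨N3, hN3⟩ := w_asym s 1 q 1 hs le_rfl hq le_rfl (min (δ / 2) 1) hδ1 (min_le_right _ _)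
    obtain ⟨Y, hYd⟩ : ∃ Y, Y = N1 + N2 + N3 + 2 := ⟨_, rfl⟩
    obtain ⟨n, hn⟩ : ∃ n, n = Y ^ (2 * (s + 1)) := ⟨_, rfl⟩
    have hYn : Y ≤ n := by rw [hn]; exact Nat.le_self_pow (by omega) Y
    have hlog : max u0 3 ≤ Real.log n := by
      refine hN2.trans ?_
      apply Real.log_le_log
      · by_contra hc
        push Not at hc
        have : Real.log N2 ≤ 0 := by
          have : (N2 : ℝ) = 0 := le_antisymm hc (Nat.cast_nonneg _)
          rw [this, Real.log_zero]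
        have := le_max_right u0 3
        linarith
      · exact_mod_cast (by omega : N2 ≤ n)
    have hlog3 : 3 ≤ Real.log n := (le_max_right _ _).trans hlog
    have hn2 : n < (Y + 1) ^ (2 * (s + 1)) := by rw [hn]; exact Nat.pow_lt_pow_left (by omega) (by omega)
    have hpar : Par (s + 1) 1 n Y ⌈Real.log n⌉₊ := by
      refine ⟨by rw [hn], hn2, ?_, ?_⟩
      · rw [pow_one]; exact Nat.le_ceil _
      · rw [pow_one]
        have := Nat.ceil_lt_add_one (by linarith : 0 ≤ Real.log n)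
        linarith
    obtain ⟨_, h4⟩ := hN3 n (by omega) Y _ hpar
    have hn0 : (0 : ℝ) ≤ n := Nat.cast_nonneg n
    have h5 := h4 n (by
      calc min (δ / 2) 1 * (n : ℝ) ≤ 1 * n := mul_le_mul_of_nonneg_right (min_le_right _ _) hn0
        _ = n := one_mul _) (by omega)
    have h1 := h (fun a => (Pool.Agent.TH212.PS.EE Y (s + 1) a : ℝ)) Y q n (hyp_EE Y s) hq (by omega)
      (by rw [hn]; exact hpowY Y (by omega)) hn2.le
    rw [ww_eq_wt] at h5
    refine ⟨Real.log n, (le_max_left _ _).trans hlog, ?_⟩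
    have h2 := hN1 n (by omega)
    have hL1 : 1 ≤ Real.log n ^ s := one_le_pow₀ (by linarith)
    have h6 : min (δ / 2) 1 * Real.log n ^ s ≤ δ / 2 * Real.log n ^ s := mul_le_mul_of_nonneg_right (min_le_left _ _) (by positivity)
    have h7 : δ / 2 ≤ δ / 2 * Real.log n ^ s := le_mul_of_one_le_right (by positivity) hL1
    obtain ⟨w, hw⟩ : ∃ w, w = wt (fun a => (Pool.Agent.TH212.PS.EE Y (s + 1) a : ℝ)) Y q n := ⟨_, rfl⟩
    rw [← hw] at h1 h5
    have e : (P q).eval (Real.log n) - gam s q / (s.factorial : ℝ) * Real.log n ^ s =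
        (w - gam s q / (s.factorial : ℝ) * Real.log n ^ s) - (w - (P q).eval (Real.log n)) := by ring
    rw [e]
    refine (abs_sub _ _).trans ?_
    linarith

/-- **the smooth weights are polynomials in `log n`, up to a power saving**, with the leading coefficients -/
theorem W_lead (r : ℕ) (hr : 1 ≤ r) : ∃ P : ℕ → ℝ[X], (∀ q, (P q).natDegree ≤ r - 1) ∧
    (∀ q, 1 ≤ q → (P q).coeff (r - 1) = kap (r - 1) q / ((r - 1).factorial : ℝ)) ∧ ∀ k : ℕ, ∃ C A d : ℝ, 0 < d ∧ ∀ q Y n : ℕ,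
    1 ≤ q → 2 ≤ Y → 2 * Y ^ r ≤ n → n ≤ (Y + 1) ^ k →
    |(∑ a ∈ (Icc 1 n).filter (fun a => q ∣ a ∧ a * Y < n), (Pool.Agent.TH212.PS.EE Y r a : ℝ) / a) - (P q).eval (Real.log n)| ≤
      C * (q : ℝ) ^ A * (n : ℝ) ^ (-d) := by
  obtain ⟨s, rfl⟩ : ∃ s, r = s + 1 := ⟨r - 1, by omega⟩
  obtain ⟨P, hP, h0⟩ := wt_asym s
  refine ⟨P, hP, fun q hq => lead s P hP (h0 (2 * (s + 1))) q hq, fun k => ?_⟩
  obtain ⟨K, d, hK, hd, h⟩ := h0 k
  refine ⟨K, ((2 * s + 4 : ℕ) : ℝ), d, hd, fun q Y n hq hY hn1 hn2 => ?_⟩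
  rw [Real.rpow_natCast]
  exact h (fun a => (Pool.Agent.TH212.PS.EE Y (s + 1) a : ℝ)) Y q n (hyp_EE Y s) hq (by omega) hn1 hn2

end Pool.Agent.TH935.LP
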